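import Pool.Agent.Helper65.WP.Ind

set_option autoImplicit false

/-! One step: the number of good values of the perturbation; the probability that none is taken. -/

namespace Pool.Agent.Helper65.WP

open MeasureTheory ProbabilityTheory Finset
open scoped ENNReal

open Classical in
/-- the number of good values -/
theorem count (B : Set ℕ) {M l l' R w : ℕ} (hM : 0 < M) (hl' : 0 < l') (hll : l' ≤ l)
    (hR : 2 * l ≤ R) (hw : M * R ≤ w)
    (hB : ∀ i, (i + 1) * l ≤ R → ∃ b ∈ B, b ≤ w - i * (M * l) ∧ w - i * (M * l) < b + M * l ∧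
      b ≡ w [MOD M]) :
    R * l' ≤ 4 * l * ((range R).filter
      (fun v => ∃ b ∈ B, M * v + b ≤ w ∧ w < M * v + b + M * l')).card := by
  set T := (range R).filter (fun v => ∃ b ∈ B, M * v + b ≤ w ∧ w < M * v + b + M * l') with hT
  have hl : 0 < l := lt_of_lt_of_le hl' hll
  obtain ⟨I, hI⟩ : ∃ I, I = R / (2 * l) := ⟨_, rfl⟩
  have hI1 : 1 ≤ I := by
    rw [hI]
    exact (Nat.one_le_div_iff (by positivity)).2 hR
  have hI2 : 2 * l * I ≤ R := by
    rw [hI]
    exact Nat.mul_div_le _ _
  have hI3 : R < 2 * l * (I + 1) := by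
    rw [hI]
    exact Nat.lt_mul_div_succ _ (by positivity)
  -- the numbers `q i`
  have hq : ∀ i, i < 2 * I → ∃ b ∈ B, ∃ q, w = b + M * q ∧ i * l ≤ q ∧ q < (i + 1) * l := by
    intro i hi
    have h1 : (i + 1) * l ≤ R := by
      calc (i + 1) * l ≤ (2 * I) * l := Nat.mul_le_mul_right _ hi
        _ = 2 * l * I := by ring
        _ ≤ R := hI2
    obtain ⟨b, hb, h2, h3, h4⟩ := hB i h1
    have h5 : i * (M * l) ≤ w := by
      calc i * (M * l) = M * (i * l) := by ring
        _ ≤ M * R := Nat.mul_le_mul_left _ (by nlinarith)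
        _ ≤ w := hw
    have h6 : b ≤ w := h2.trans (Nat.sub_le _ _)
    obtain ⟨q, hq⟩ := (Nat.modEq_iff_dvd' h6).1 h4
    refine ⟨b, hb, q, by omega, ?_, ?_⟩
    · have h7 : M * (i * l) ≤ M * q := by
        rw [← hq]
        have : i * (M * l) = M * (i * l) := by ring
        omega
      exact Nat.le_of_mul_le_mul_left h7 hM
    · have h7 : M * q < M * ((i + 1) * l) := by
        rw [← hq]
        have e1 : i * (M * l) = M * (i * l) := by ring
        have e2 : M * ((i + 1) * l) = M * (i * l) + M * l := by ring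
        omega
      exact Nat.lt_of_mul_lt_mul_left h7
  choose! b hbB q hwq hq1 hq2 using hq
  have hcard : I * l' ≤ T.card := by
    have h1 : ((range I) ×ˢ (range l')).card ≤ T.card := by
      apply Finset.card_le_card_of_injOn (fun z => q (2 * z.1 + 1) - z.2)
      · rintro ⟨c, d⟩ hz
        rw [mem_coe, mem_product, mem_range, mem_range] at hz
        obtain ⟨hc, hd⟩ := hz
        have hi : 2 * c + 1 < 2 * I := by omega
        have g1 := hq1 _ hi
        have g2 := hq2 _ hi
        have g3 := hwq _ hi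
        have g4 : l ≤ q (2 * c + 1) := le_trans (by nlinarith) g1
        have g5 : d ≤ q (2 * c + 1) := by omega
        rw [mem_coe, hT, mem_filter, mem_range]
        have g6 : (2 * c + 1 + 1) * l ≤ R := by
          calc (2 * c + 1 + 1) * l ≤ (2 * I) * l := Nat.mul_le_mul_right _ hi
            _ = 2 * l * I := by ring
            _ ≤ R := hI2
        refine ⟨by dsimp only; omega, b (2 * c + 1), hbB _ hi, ?_, ?_⟩
        · dsimp only
          have : M * (q (2 * c + 1) - d) ≤ M * q (2 * c + 1) := Nat.mul_le_mul_left _ (Nat.sub_le _ _)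
          omega
        · dsimp only
          have g7 : M * (q (2 * c + 1) - d) + M * d = M * q (2 * c + 1) := by
            rw [← Nat.mul_add, Nat.sub_add_cancel g5]
          have g8 : M * d < M * l' := Nat.mul_lt_mul_of_pos_left hd hM
          omega
      · rintro ⟨c, d⟩ hz ⟨c', d'⟩ hz' heq
        rw [mem_coe, mem_product, mem_range, mem_range] at hz hz'
        obtain ⟨hc, hd⟩ := hz
        obtain ⟨hc', hd'⟩ := hz'
        dsimp only at heq hc hd hc' hd'
        have key : ∀ c d c' d' : ℕ, c < I → d < l' → c' < I → d' < l' → c < c' →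
            q (2 * c + 1) - d < q (2 * c' + 1) - d' := by
          intro c d c' d' hc hd hc' hd' hcc
          have g1 := hq2 (2 * c + 1) (by omega)
          have g2 := hq1 (2 * c' + 1) (by omega)
          have g3 : (2 * c + 1 + 1) * l + l ≤ (2 * c' + 1) * l := by
            have : 2 * c + 1 + 1 + 1 ≤ 2 * c' + 1 := by omega
            calc (2 * c + 1 + 1) * l + l = (2 * c + 1 + 1 + 1) * l := by ring
              _ ≤ _ := Nat.mul_le_mul_right _ this
          omega
        rcases lt_trichotomy c c' with h | h | h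
        · exact absurd heq (ne_of_lt (key c d c' d' hc hd hc' hd' h))
        · subst h
          have g1 := hq1 (2 * c + 1) (by omega)
          have g4 : l ≤ q (2 * c + 1) := le_trans (by nlinarith) g1
          have : d = d' := by omega
          rw [this]
        · exact absurd heq.symm (ne_of_lt (key c' d' c d hc' hd' hc hd h))
    rwa [card_product, card_range, card_range] at h1
  calc R * l' ≤ (2 * l * (I + 1)) * l' := Nat.mul_le_mul_right _ hI3.le
    _ ≤ (4 * l * I) * l' := Nat.mul_le_mul_right _ (by nlinarith)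
    _ = 4 * l * (I * l') := by ring
    _ ≤ 4 * l * T.card := Nat.mul_le_mul_left _ hcard

/-- a uniformly distributed number misses a set with many elements -/
theorem miss {Ω : Type*} [MeasurableSpace Ω] {μ : Measure Ω} [IsProbabilityMeasure μ] {f : Ω → ℕ}
    (hf : Measurable f) {R : ℕ} (hR : 0 < R) (hu : ∀ v < R, μ {ω | f ω = v} = (R : ℝ≥0∞)⁻¹)
    (G : Set ℕ) (T : Finset ℕ) (hT : ∀ v ∈ T, v < R ∧ v ∈ G) {q : ℝ}
    (hTq : q * R ≤ T.card) : μ {ω | f ω ∉ G} ≤ ENNReal.ofReal (1 - q) := by
  have h1 : μ (f ⁻¹' (T : Set ℕ)) = ENNReal.ofReal (T.card / R) := by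
    have e : f ⁻¹' (T : Set ℕ) = ⋃ v ∈ T, {ω | f ω = v} := by
      ext ω
      simp
    rw [e, measure_biUnion_finset]
    · rw [sum_congr rfl fun v hv => hu v (hT v hv).1, sum_const, nsmul_eq_mul,
        ENNReal.ofReal_div_of_pos (by exact_mod_cast hR), ENNReal.ofReal_natCast,
        ENNReal.ofReal_natCast]
      rfl
    · intro v _ v' _ hvv
      refine Set.disjoint_left.2 fun ω h1 h2 => hvv ?_
      simp only [Set.mem_ofPred_eq] at h1 h2
      rw [← h1, ← h2]
    · intro v _
      exact hf (MeasurableSet.of_discrete (s := {v}))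
  have h2 : {ω | f ω ∉ G} ⊆ (f ⁻¹' (T : Set ℕ))ᶜ := by
    intro ω h h'
    exact h (hT _ h').2
  refine (measure_mono h2).trans ?_
  rw [prob_compl_eq_one_sub (hf MeasurableSet.of_discrete), h1, ← ENNReal.ofReal_one,
    ← ENNReal.ofReal_sub _ (by positivity)]
  apply ENNReal.ofReal_le_ofReal
  have hR' : (0 : ℝ) < R := by exact_mod_cast hR
  have : q ≤ T.card / R := by rw [le_div_iff₀ hR']; exact hTq
  linarith

end Pool.Agent.Helper65.WP
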