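import Mathlib

set_option autoImplicit false

/-! Sums of perturbed `k`-th powers from given classes close to a given number (the greedy algorithm). -/

namespace Pool.Agent.Helper65.WP

open Finset Filter Topology

/-- the perturbed powers: `x ^ k ≤ a x ≤ x ^ k + M x ^ (k - 1)` -/
def Pert (k M : ℕ) (a : ℕ → ℕ) : Prop := ∀ x : ℕ, 0 < x → x ^ k ≤ a x ∧ a x ≤ x ^ k + M * x ^ (k - 1)

lemma exists_class {M : ℕ} (hM : 0 < M) (r y : ℕ) (hy : M ≤ y) :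
    ∃ x, x ≡ r [MOD M] ∧ x ≤ y ∧ y < x + M := by
  have hc : (y + (M - r % M)) % M < M := Nat.mod_lt _ hM
  refine ⟨y - (y + (M - r % M)) % M, ?_, Nat.sub_le _ _, by omega⟩
  have h1 : r % M < M := Nat.mod_lt _ hM
  have h2 : y - (y + (M - r % M)) % M + (y + (M - r % M)) % M = y := by omega
  -- y + (M - r%M) ≡ c
  have h3 : (y + (M - r % M)) % M ≡ y + (M - r % M) [MOD M] := Nat.mod_modEq _ _
  have h4 : y - (y + (M - r % M)) % M + (y + (M - r % M)) ≡ y [MOD M] := by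
    calc y - (y + (M - r % M)) % M + (y + (M - r % M))
        ≡ y - (y + (M - r % M)) % M + (y + (M - r % M)) % M [MOD M] := Nat.ModEq.add_left _ h3.symm
      _ = y := h2
  have h5 : y + (M - r % M) + r ≡ y [MOD M] := by
    have e : r = M * (r / M) + r % M := (Nat.div_add_mod r M).symm
    have e2 : y + (M - r % M) + r = y + M * (r / M + 1) := by
      rw [mul_add, mul_one]; omega
    rw [e2]
    simp [Nat.ModEq]
  have h6 : y - (y + (M - r % M)) % M + (y + (M - r % M)) + (y + (M - r % M)) ≡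
      r + (y + (M - r % M)) + (y + (M - r % M)) [MOD M] := by
    calc _ ≡ y + (y + (M - r % M)) [MOD M] := Nat.ModEq.add_right _ h4
      _ ≡ (y + (M - r % M) + r) + (y + (M - r % M)) [MOD M] := Nat.ModEq.add_right _ h5.symm
      _ = _ := by ring
  exact Nat.ModEq.add_right_cancel' _ (Nat.ModEq.add_right_cancel' _ h6)

/-- one step of the greedy algorithm -/
lemma step {k M : ℕ} (hk : 2 ≤ k) (hM : 0 < M) {a : ℕ → ℕ} (ha : Pert k M a) {P : ℝ}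
    (hP : 4 * (M : ℝ) + 6 ≤ P) (r : ℕ) :
    ∃ x : ℕ, 0 < x ∧ x ≡ r [MOD M] ∧ P / 2 ≤ x ∧ (x : ℝ) ≤ P ∧ P ^ (k - 1) ≤ P ^ k - a x ∧
      P ^ k - a x ≤ (k * (2 * M + 2) : ℝ) * P ^ (k - 1) := by
  have hM1 : (1 : ℝ) ≤ M := by exact_mod_cast hM
  obtain ⟨y, hy⟩ : ∃ y, y = ⌊P - (M + 1)⌋₊ := ⟨_, rfl⟩
  have hP0 : 0 ≤ P - (M + 1) := by linarith
  have hy1 : (y : ℝ) ≤ P - (M + 1) := by rw [hy]; exact Nat.floor_le hP0
  have hy2 : P - (M + 1) < y + 1 := by rw [hy]; exact Nat.lt_floor_add_one _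
  have hMy : M ≤ y := by
    have : (M : ℝ) < y + 1 := by linarith
    exact_mod_cast Nat.lt_succ_iff.1 (by exact_mod_cast this)
  obtain ⟨x, hx1, hx2, hx3⟩ := exists_class hM r y hMy
  have hx2' : (x : ℝ) ≤ y := by exact_mod_cast hx2
  have hx3' : (y : ℝ) + 1 ≤ x + M := by exact_mod_cast hx3
  have hxP : (x : ℝ) ≤ P := by linarith
  have hxP2 : P / 2 ≤ x := by linarith
  have hx0 : (0 : ℝ) < x := by linarith
  have hx0' : 0 < x := by exact_mod_cast hx0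
  have hPp : 0 < P := by linarith
  have e1 : P ^ k = P * P ^ (k - 1) := by
    rw [← pow_succ']; congr 1; omega
  have e2 : (x : ℝ) ^ k = x * (x : ℝ) ^ (k - 1) := by
    rw [← pow_succ']; congr 1; omega
  have h1 : (x : ℝ) ^ (k - 1) ≤ P ^ (k - 1) := pow_le_pow_left₀ hx0.le hxP _
  have h2 : (0 : ℝ) ≤ P ^ (k - 1) := by positivity
  obtain ⟨ha1, ha2⟩ := ha x hx0'
  have ha1' : (x : ℝ) ^ k ≤ a x := by exact_mod_cast ha1
  have ha2' : (a x : ℝ) ≤ x ^ k + M * (x : ℝ) ^ (k - 1) := by exact_mod_cast ha2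
  refine ⟨x, hx0', hx1, hxP2, hxP, ?_, ?_⟩
  · have h3 : (x : ℝ) * (x : ℝ) ^ (k - 1) ≤ x * P ^ (k - 1) := mul_le_mul_of_nonneg_left h1 hx0.le
    have h4 : (M : ℝ) * (x : ℝ) ^ (k - 1) ≤ M * P ^ (k - 1) :=
      mul_le_mul_of_nonneg_left h1 (by positivity)
    have h5 : (a x : ℝ) ≤ (x + M) * P ^ (k - 1) := by
      rw [e2] at ha2'; linarith
    have h6 : (1 : ℝ) * P ^ (k - 1) ≤ (P - (x + M)) * P ^ (k - 1) :=
      mul_le_mul_of_nonneg_right (by linarith) h2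
    rw [e1]; linarith
  · have h3 : 1 + (k : ℝ) * (x / P - 1) ≤ (1 + (x / P - 1)) ^ k :=
      one_add_mul_le_pow (by
        have : 0 ≤ x / P := by positivity
        linarith) k
    have h4 : (1 + (x / P - 1)) ^ k * P ^ k = (x : ℝ) ^ k := by
      rw [← mul_pow]
      congr 1
      field_simp
      ring
    have h5 : (1 + (k : ℝ) * (x / P - 1)) * P ^ k ≤ x ^ k := by
      rw [← h4]
      exact mul_le_mul_of_nonneg_right h3 (by positivity)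
    have h6 : (1 + (k : ℝ) * (x / P - 1)) * P ^ k = P ^ k - k * (P - x) * P ^ (k - 1) := by
      rw [e1]
      field_simp
      ring
    have h7 : (k : ℝ) * (P - x) * P ^ (k - 1) ≤ k * (2 * M + 2) * P ^ (k - 1) := by
      apply mul_le_mul_of_nonneg_right _ h2
      apply mul_le_mul_of_nonneg_left _ (by positivity)
      linarith
    linarith

/-- the conclusion of the greedy algorithm with `g` terms -/
def Greedy (k M g : ℕ) : Prop :=
  ∃ C m₀ : ℝ, 1 ≤ C ∧ ∀ a : ℕ → ℕ, Pert k M a → ∀ m : ℕ, m₀ ≤ m → ∀ r : ℕ → ℕ,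
    ∃ x : Fin g → ℕ, (∀ i, 0 < x i ∧ x i ≡ r i [MOD M]) ∧ ∑ i, a (x i) ≤ m ∧
      (m : ℝ) ≤ ∑ i, (a (x i) : ℝ) + C * (m : ℝ) ^ ((1 - 1 / (k : ℝ)) ^ g)

/-- `g + 1` terms, with the sizes of the variables -/
def GreedyS (k M g : ℕ) : Prop :=
  ∃ C C₁ m₀ : ℝ, 1 ≤ C ∧ 0 < C₁ ∧ ∀ a : ℕ → ℕ, Pert k M a → ∀ m : ℕ, m₀ ≤ m → ∀ r : ℕ → ℕ,
    ∃ x : Fin (g + 1) → ℕ, (∀ i, 0 < x i ∧ x i ≡ r i [MOD M]) ∧ ∑ i, a (x i) ≤ m ∧
      (m : ℝ) ≤ ∑ i, (a (x i) : ℝ) + C * (m : ℝ) ^ ((1 - 1 / (k : ℝ)) ^ (g + 1)) ∧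
      (m : ℝ) ^ (1 / (k : ℝ)) / 2 ≤ x 0 ∧
      ∀ i : Fin g, ((x i.succ : ℕ) : ℝ) ^ k ≤ C₁ * (m : ℝ) ^ (1 - 1 / (k : ℝ))

lemma greedy_zero (k M : ℕ) : Greedy k M 0 := by
  refine ⟨1, 0, le_rfl, fun a _ m _ r => ⟨fun i => i.elim0, fun i => i.elim0, by simp, by simp⟩⟩

lemma greedyS_of {k M g : ℕ} (hk : 2 ≤ k) (hM : 0 < M) (h : Greedy k M g) : GreedyS k M g := by
  obtain ⟨C, m₀, hC, h⟩ := h
  have hk0 : (0 : ℝ) < k := by positivity
  have hk2 : (2 : ℝ) ≤ k := by exact_mod_cast hk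
  have hρ0 : 0 < 1 - 1 / (k : ℝ) := by
    have : 1 / (k : ℝ) ≤ 1 / 2 := one_div_le_one_div_of_le (by norm_num) hk2
    linarith
  have hρ1 : 1 - 1 / (k : ℝ) ≤ 1 := by
    have : 0 < 1 / (k : ℝ) := by positivity
    linarith
  set ρ := 1 - 1 / (k : ℝ) with hρ
  obtain ⟨C₁, hC₁⟩ : ∃ C₁ : ℝ, C₁ = k * (2 * M + 2) := ⟨_, rfl⟩
  have hC₁1 : 1 ≤ C₁ := by
    rw [hC₁]
    have : (0 : ℝ) ≤ M := by positivity
    nlinarith
  -- thresholds
  have t1 : ∀ᶠ y : ℝ in atTop, 4 * (M : ℝ) + 6 ≤ y ^ (1 / (k : ℝ)) :=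
    (tendsto_rpow_atTop (by positivity)).eventually_ge_atTop _
  have t2 : ∀ᶠ y : ℝ in atTop, m₀ ≤ y ^ ρ := (tendsto_rpow_atTop hρ0).eventually_ge_atTop _
  obtain ⟨m₁, hm₁⟩ := (((t1.and t2).and (eventually_ge_atTop (1 : ℝ)))).exists_forall_of_atTop
  refine ⟨C * C₁, C₁, m₁, by nlinarith, by linarith, fun a ha m hm r => ?_⟩
  obtain ⟨⟨g1, g2⟩, g3⟩ := hm₁ m hm
  have hm0 : (0 : ℝ) < m := by linarith
  obtain ⟨P, hP⟩ : ∃ P : ℝ, P = (m : ℝ) ^ (1 / (k : ℝ)) := ⟨_, rfl⟩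
  have hPk : P ^ k = m := by
    rw [hP, ← Real.rpow_natCast, ← Real.rpow_mul hm0.le, one_div_mul_cancel hk0.ne', Real.rpow_one]
  have hPk1 : P ^ (k - 1) = (m : ℝ) ^ ρ := by
    rw [hP, ← Real.rpow_natCast, ← Real.rpow_mul hm0.le]
    congr 1
    rw [Nat.cast_sub (by omega), hρ]
    push_cast
    field_simp
  rw [← hP] at g1
  obtain ⟨x₀, hx0, hxr, hx1, hx2, hx3, hx4⟩ := step hk hM ha g1 (r 0)
  rw [hPk, hPk1, ← hC₁] at hx4
  rw [hPk, hPk1] at hx3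
  have hax : a x₀ ≤ m := by
    have : (a x₀ : ℝ) ≤ m := by
      have : (0 : ℝ) ≤ (m : ℝ) ^ ρ := by positivity
      linarith
    exact_mod_cast this
  have e1 : ((m - a x₀ : ℕ) : ℝ) = m - a x₀ := Nat.cast_sub hax
  obtain ⟨x, h1, h2, h3⟩ := h a ha (m - a x₀) (by rw [e1]; linarith) (fun i => r (i + 1))
  rw [e1] at h3
  refine ⟨Fin.cons x₀ x, ?_, ?_, ?_, ?_, ?_⟩
  · intro i
    refine Fin.cases ?_ (fun i => ?_) i
    · exact ⟨by simpa using hx0, by simpa using hxr⟩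
    · simp only [Fin.cons_succ, Fin.val_succ]
      exact h1 i
  · rw [Fin.sum_univ_succ]
    simp only [Fin.cons_zero, Fin.cons_succ]
    omega
  · rw [Fin.sum_univ_succ]
    simp only [Fin.cons_zero, Fin.cons_succ]
    have h4 : ((m : ℝ) - a x₀) ^ (ρ ^ g) ≤ C₁ * (m : ℝ) ^ (ρ ^ (g + 1)) := by
      calc ((m : ℝ) - a x₀) ^ (ρ ^ g) ≤ (C₁ * (m : ℝ) ^ ρ) ^ (ρ ^ g) := by
            apply Real.rpow_le_rpow _ hx4 (by positivity)
            rw [← e1]; positivity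
        _ = C₁ ^ (ρ ^ g) * (m : ℝ) ^ (ρ ^ (g + 1)) := by
            rw [Real.mul_rpow (by linarith) (by positivity), ← Real.rpow_mul hm0.le, pow_succ']
        _ ≤ C₁ * (m : ℝ) ^ (ρ ^ (g + 1)) := by
            apply mul_le_mul_of_nonneg_right _ (by positivity)
            calc C₁ ^ (ρ ^ g) ≤ C₁ ^ (1 : ℝ) :=
                  Real.rpow_le_rpow_of_exponent_le hC₁1 (pow_le_one₀ hρ0.le hρ1)
              _ = C₁ := Real.rpow_one _
    have h5 := mul_le_mul_of_nonneg_left h4 (by linarith : (0 : ℝ) ≤ C)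
    linarith
  · simp only [Fin.cons_zero]
    rw [← hP]
    exact hx1
  · intro i
    simp only [Fin.cons_succ]
    have h4 : a (x i) ≤ m - a x₀ := le_trans (single_le_sum (f := fun i => a (x i))
      (fun j _ => Nat.zero_le _) (mem_univ i)) h2
    have h5 : (x i) ^ k ≤ m - a x₀ := ((ha (x i) (h1 i).1).1).trans h4
    have h6 : ((x i : ℕ) : ℝ) ^ k ≤ ((m - a x₀ : ℕ) : ℝ) := by exact_mod_cast h5
    rw [e1] at h6
    linarith

lemma greedy_succ {k M g : ℕ} (h : GreedyS k M g) : Greedy k M (g + 1) := by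
  obtain ⟨C, C₁, m₀, hC, -, h⟩ := h
  refine ⟨C, m₀, hC, fun a ha m hm r => ?_⟩
  obtain ⟨x, h1, h2, h3, -⟩ := h a ha m hm r
  exact ⟨x, h1, h2, h3⟩

theorem greedy {k M : ℕ} (hk : 2 ≤ k) (hM : 0 < M) (g : ℕ) : Greedy k M g := by
  induction g with
  | zero => exact greedy_zero k M
  | succ g ih => exact greedy_succ (greedyS_of hk hM ih)

theorem greedyS {k M : ℕ} (hk : 2 ≤ k) (hM : 0 < M) (g : ℕ) : GreedyS k M g :=
  greedyS_of hk hM (greedy hk hM g)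

end Pool.Agent.Helper65.WP
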