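import Pool.Agent.Helper65.WP.Cnt
import Pool.Agent.Helper65.WP.Gr

set_option autoImplicit false

/-! The sets of the sums of `g + j` terms, and the step from `j` to `j + 1`. -/

namespace Pool.Agent.Helper65.WP

open MeasureTheory ProbabilityTheory Finset Filter
open scoped ENNReal

/-- the block number `j` at the scale `N` -/
def blk (N j : ℕ) : Finset ℕ := Ioc (N / 4 ^ (j + 2)) (2 * (N / 4 ^ (j + 2)))

lemma blk_disj {N i j x : ℕ} (h : i < j) (hi : x ∈ blk N i) : x ∉ blk N j := by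
  intro hj
  rw [blk, mem_Ioc] at hi hj
  have e : N / 4 ^ (j + 2) ≤ N / 4 ^ (i + 3) :=
    Nat.div_le_div_left (Nat.pow_le_pow_right (by norm_num) (by omega)) (by positivity)
  have e2 : N / 4 ^ (i + 3) = N / 4 ^ (i + 2) / 4 := by
    rw [Nat.div_div_eq_div_mul, pow_succ]
  omega

lemma blk_le {N j x : ℕ} (h : x ∈ blk N j) : x ≤ 2 * N ∧ 0 < x := by
  rw [blk, mem_Ioc] at h
  have : N / 4 ^ (j + 2) ≤ N := Nat.div_le_self _ _
  omega

/-- the perturbed powers -/
def av (k M : ℕ) (v : ℕ → ℕ) (x : ℕ) : ℕ := x ^ k + M * v x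

/-- the sums of `g + j` perturbed powers -/
def SS (k M g t N : ℕ) (X : Set ℕ) (r v : ℕ → ℕ) : ℕ → Set ℕ
  | 0 => {b | ∃ x : Fin g → ℕ, (∀ i, 0 < x i ∧ x i ≤ 2 * N ∧ x i ≡ r i [MOD M] ∧
      ∀ j < t, x i ∉ blk N j) ∧ b = ∑ i, av k M v (x i)}
  | j + 1 => {b | ∃ x ∈ blk N j, x ∈ X ∧ x ≡ r (g + j) [MOD M] ∧
      ∃ b' ∈ SS k M g t N X r v j, b = av k M v x + b'}

lemma av_class {k M : ℕ} {v : ℕ → ℕ} {x y : ℕ} (h : x ≡ y [MOD M]) :
    av k M v x ≡ y ^ k [MOD M] := by
  unfold av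
  calc x ^ k + M * v x ≡ x ^ k [MOD M] := by simp [Nat.ModEq]
    _ ≡ y ^ k [MOD M] := h.pow k

lemma SS_class {k M g t N : ℕ} {X : Set ℕ} {r v : ℕ → ℕ} {j b : ℕ} (h : b ∈ SS k M g t N X r v j) :
    b ≡ ∑ i ∈ range (g + j), r i ^ k [MOD M] := by
  induction j generalizing b with
  | zero =>
    obtain ⟨x, hx, rfl⟩ := h
    rw [add_zero, ← Fin.sum_univ_eq_sum_range]
    exact Nat.ModEq.sum fun i _ => av_class (hx i).2.2.1
  | succ j ih =>
    obtain ⟨x, -, -, hx, b', hb', rfl⟩ := h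
    rw [← add_assoc, sum_range_succ, add_comm]
    exact (ih hb').add (av_class hx)

lemma SS_congr {k M g t N : ℕ} {X : Set ℕ} {r : ℕ → ℕ} {j : ℕ} (hj : j ≤ t) {v v' : ℕ → ℕ}
    (h : ∀ x, x ≤ 2 * N → (∀ i, j ≤ i → i < t → x ∉ blk N i) → v x = v' x) {b : ℕ}
    (hb : b ∈ SS k M g t N X r v j) : b ∈ SS k M g t N X r v' j := by
  induction j generalizing b with
  | zero =>
    obtain ⟨x, hx, rfl⟩ := hb
    refine ⟨x, hx, sum_congr rfl fun i _ => ?_⟩
    unfold av
    rw [h (x i) (hx i).2.1 fun j _ hj' => (hx i).2.2.2 j hj']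
  | succ j ih =>
    obtain ⟨x, hx1, hx2, hx3, b', hb', rfl⟩ := hb
    refine ⟨x, hx1, hx2, hx3, b', ih (by omega) (fun y hy1 hy2 => h y hy1 fun i hi => hy2 i (by omega)) hb', ?_⟩
    unfold av
    rw [h x (blk_le hx1).1 fun i hi _ => blk_disj (by omega) hx1]

lemma SS_terms {k M g t N : ℕ} {X : Set ℕ} {r v : ℕ → ℕ} {j b : ℕ} (h : b ∈ SS k M g t N X r v j) :
    ∃ x : Fin (g + j) → ℕ, (∀ i, 0 < x i) ∧ b = ∑ i, av k M v (x i) := by
  induction j generalizing b with
  | zero =>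
    obtain ⟨x, hx, rfl⟩ := h
    exact ⟨x, fun i => (hx i).1, rfl⟩
  | succ j ih =>
    obtain ⟨x, hx, -, -, b', hb', rfl⟩ := h
    obtain ⟨y, hy, rfl⟩ := ih hb'
    have h1 : ∀ i : Fin (g + j + 1), 0 < (Fin.cons x y : Fin (g + j + 1) → ℕ) i := by
      intro i
      refine Fin.cases ?_ (fun i => ?_) i
      · exact (blk_le hx).2
      · simpa using hy i
    have h2 : av k M v x + ∑ i, av k M v (y i) =
        ∑ i, av k M v ((Fin.cons x y : Fin (g + j + 1) → ℕ) i) := by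
      rw [Fin.sum_univ_succ]
      simp only [Fin.cons_zero, Fin.cons_succ]
    exact ⟨(Fin.cons x y : Fin (g + j + 1) → ℕ), h1, h2⟩

/-- every number of the class in the range is just above a sum of `g + j` terms -/
def Good (k M g t N : ℕ) (X : Set ℕ) (r l v : ℕ → ℕ) (j : ℕ) : Prop :=
  ∀ u : ℕ, (1 - (1 / 2 : ℝ) ^ (j + 1)) * (N : ℝ) ^ k ≤ u → u < (2 * N) ^ k →
    u ≡ ∑ i ∈ range (g + j), r i ^ k [MOD M] →
    ∃ b ∈ SS k M g t N X r v j, b ≤ u ∧ u < b + M * l j

open Classical in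
theorem cover_step {k M g t N : ℕ} {X : Set ℕ} {r l R : ℕ → ℕ} {j : ℕ} (hM : 0 < M) (hj : j < t)
    (hR : ∀ x ∈ blk N j, 2 * l j ≤ R x)
    (hsz : ∀ x ∈ blk N j, (x : ℝ) ^ k + M * R x ≤ (N : ℝ) ^ k / 2 ^ (j + 2))
    (hl0 : 0 < l (j + 1)) (hl1 : l (j + 1) ≤ l j) {q : ℝ}
    (hq : q * (4 * l j) ≤ l (j + 1))
    {Ω : Type*} [MeasurableSpace Ω] {μ : Measure Ω} [IsProbabilityMeasure μ]
    {ξ : ℕ → Ω → ℕ} (hm : ∀ x, Measurable (ξ x)) (hi : iIndepFun ξ μ) (hR0 : ∀ x, 0 < R x)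
    (hu : ∀ x ∈ X, ∀ v < R x, μ {ω | ξ x ω = v} = (R x : ℝ≥0∞)⁻¹) :
    μ {ω | Good k M g t N X r l (fun x => ξ x ω) j ∧ ¬ Good k M g t N X r l (fun x => ξ x ω) (j + 1)} ≤
      ((2 * N) ^ k : ℕ) * ENNReal.ofReal (1 - q) ^
        ((blk N j).filter fun x => x ∈ X ∧ x ≡ r (g + j) [MOD M]).card := by
  set I := (blk N j).filter fun x => x ∈ X ∧ x ≡ r (g + j) [MOD M] with hI
  set F := (range (2 * N + 1)).filter fun x => ∀ i, j ≤ i → i < t → x ∉ blk N i with hF
  set c : ℕ → ℕ := fun j => ∑ i ∈ range (g + j), r i ^ k with hc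
  let G : ℕ → (ℕ → ℕ) → ℕ → Set ℕ := fun u v x =>
    {m | ∃ b ∈ SS k M g t N X r v j, x ^ k + M * m + b ≤ u ∧ u < x ^ k + M * m + b + M * l (j + 1)}
  set U := (range ((2 * N) ^ k)).filter fun u : ℕ =>
    (1 - (1 / 2 : ℝ) ^ (j + 2)) * (N : ℝ) ^ k ≤ u ∧ u ≡ c (j + 1) [MOD M] with hU
  have hFI : Disjoint F I := by
    rw [Finset.disjoint_left]
    intro x hx hx'
    rw [hF, mem_filter] at hx
    rw [hI, mem_filter] at hx'
    exact hx.2 j le_rfl hj hx'.1
  have hagree : ∀ v v' : ℕ → ℕ, (∀ x ∈ F, v x = v' x) → ∀ x, x ≤ 2 * N →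
      (∀ i, j ≤ i → i < t → x ∉ blk N i) → v x = v' x := by
    intro v v' h x hx hx'
    refine h x ?_
    rw [hF, mem_filter, mem_range]
    exact ⟨by omega, hx'⟩
  have key : ∀ u ∈ U, μ {ω | Good k M g t N X r l (fun x => ξ x ω) j ∧
      ∀ x ∈ I, ξ x ω ∉ G u (fun y => ξ y ω) x} ≤ ENNReal.ofReal (1 - q) ^ I.card := by
    intro u huU
    rw [hU, mem_filter, mem_range] at huU
    obtain ⟨hu1, hu2, hu3⟩ := huU
    apply indep_bound hm hi F I hFI (fun v => Good k M g t N X r l v j) (G u)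
    · intro v v' hvv hg u' h1 h2 h3
      obtain ⟨b, hb, h4⟩ := hg u' h1 h2 h3
      exact ⟨b, SS_congr hj.le (hagree v v' hvv) hb, h4⟩
    · intro v v' hvv x _
      ext m
      constructor
      · rintro ⟨b, hb, h4⟩
        exact ⟨b, SS_congr hj.le (hagree v v' hvv) hb, h4⟩
      · rintro ⟨b, hb, h4⟩
        exact ⟨b, SS_congr hj.le (fun x h1 h2 => (hagree v v' hvv x h1 h2).symm) hb, h4⟩
    · intro v hgood x hx
      rw [hI, mem_filter] at hx
      obtain ⟨hx1, hx2, hx3⟩ := hx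
      have s1 := hsz x hx1
      have hN0 : (0 : ℝ) ≤ (N : ℝ) ^ k := by positivity
      have e1 : (1 / 2 : ℝ) ^ (j + 2) = (1 / 2 : ℝ) ^ (j + 1) / 2 := by rw [pow_succ]; ring
      have e2 : (N : ℝ) ^ k / 2 ^ (j + 2) = (1 / 2 : ℝ) ^ (j + 2) * (N : ℝ) ^ k := by
        rw [one_div, inv_pow]; ring
      have e3 : (1 / 2 : ℝ) ^ (j + 1) ≤ 1 / 2 := by
        calc (1 / 2 : ℝ) ^ (j + 1) ≤ (1 / 2 : ℝ) ^ 1 :=
              pow_le_pow_of_le_one (by norm_num) (by norm_num) (by omega)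
          _ = 1 / 2 := pow_one _
      have hxR : x ^ k + M * R x ≤ u := by
        have : (x : ℝ) ^ k + M * R x ≤ u := by
          refine s1.trans (le_trans ?_ hu2)
          rw [e2]
          apply mul_le_mul_of_nonneg_right _ hN0
          have : (0 : ℝ) < (1 / 2 : ℝ) ^ (j + 1) := by positivity
          linarith
        exact_mod_cast this
      obtain ⟨w, hw⟩ : ∃ w, u = x ^ k + w := ⟨u - x ^ k, by omega⟩
      have hwR : M * R x ≤ w := by omega
      have hwc : w ≡ c j [MOD M] := by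
        have h1 : x ^ k + w ≡ x ^ k + c j [MOD M] := by
          rw [← hw]
          refine hu3.trans ?_
          simp only [hc]
          rw [← add_assoc, sum_range_succ, add_comm]
          exact Nat.ModEq.add_right _ (hx3.symm.pow k)
        exact Nat.ModEq.add_left_cancel' _ h1
      have hcount := count (SS k M g t N X r v j) (l := l j) (l' := l (j + 1)) (R := R x) (w := w)
        hM hl0 hl1 (hR x hx1) hwR (by
          intro i hi
          have h1 : i * (M * l j) ≤ w := by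
            calc i * (M * l j) = M * (i * l j) := by ring
              _ ≤ M * R x := Nat.mul_le_mul_left _ (by nlinarith)
              _ ≤ w := hwR
          have h2 : (i * (M * l j) : ℕ) ≤ M * R x := by
            calc i * (M * l j) = M * (i * l j) := by ring
              _ ≤ M * R x := Nat.mul_le_mul_left _ (by nlinarith)
          obtain ⟨b, hb, h3, h4⟩ := hgood (w - i * (M * l j)) (by
              rw [Nat.cast_sub h1]
              have h5 : ((i * (M * l j) : ℕ) : ℝ) ≤ M * R x := by exact_mod_cast h2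
              have h6 : (u : ℝ) = (x : ℝ) ^ k + w := by rw [hw]; push_cast; ring
              rw [h6] at hu2
              rw [e2] at s1
              rw [e1] at hu2 s1
              nlinarith) (by omega) (by
              have h5 : i * (M * l j) ≡ 0 [MOD M] := by
                rw [Nat.modEq_zero_iff_dvd]
                exact Dvd.intro (i * l j) (by ring)
              have h6 : w - i * (M * l j) + i * (M * l j) ≡ c j + i * (M * l j) [MOD M] := by
                rw [Nat.sub_add_cancel h1]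
                calc w ≡ c j [MOD M] := hwc
                  _ = c j + 0 := by ring
                  _ ≡ c j + i * (M * l j) [MOD M] := Nat.ModEq.add_left _ h5.symm
              exact Nat.ModEq.add_right_cancel' _ h6)
          exact ⟨b, hb, h3, h4, (SS_class hb).trans hwc.symm⟩)
      refine miss (hm x) (hR0 x) (hu x hx2) (G u v x) ((range (R x)).filter
        (fun m => ∃ b ∈ SS k M g t N X r v j, M * m + b ≤ w ∧ w < M * m + b + M * l (j + 1)))
        ?_ (q := q) ?_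
      · intro m hm'
        rw [mem_filter, mem_range] at hm'
        obtain ⟨h1, b, hb, h2, h3⟩ := hm'
        exact ⟨h1, b, hb, by omega, by omega⟩
      · have h1 : ((R x * l (j + 1) : ℕ) : ℝ) ≤ ((4 * l j * ((range (R x)).filter
            (fun m => ∃ b ∈ SS k M g t N X r v j, M * m + b ≤ w ∧
              w < M * m + b + M * l (j + 1))).card : ℕ) : ℝ) := by
          exact_mod_cast hcount
        push_cast at h1
        have hlj : (0 : ℝ) < l j := by exact_mod_cast lt_of_lt_of_le hl0 hl1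
        have hRx : (0 : ℝ) < R x := by exact_mod_cast hR0 x
        have h2 : q * (4 * l j) * R x ≤ l (j + 1) * R x := mul_le_mul_of_nonneg_right hq hRx.le
        have h3 : (4 * l j : ℝ) * (q * R x) ≤ 4 * l j * (((range (R x)).filter
            (fun m => ∃ b ∈ SS k M g t N X r v j, M * m + b ≤ w ∧
              w < M * m + b + M * l (j + 1))).card : ℝ) := by
          linarith
        exact le_of_mul_le_mul_left h3 (by positivity)
  have hsub : {ω | Good k M g t N X r l (fun x => ξ x ω) j ∧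
      ¬ Good k M g t N X r l (fun x => ξ x ω) (j + 1)} ⊆
      ⋃ u ∈ U, {ω | Good k M g t N X r l (fun x => ξ x ω) j ∧
        ∀ x ∈ I, ξ x ω ∉ G u (fun y => ξ y ω) x} := by
    rintro ω ⟨h1, h2⟩
    unfold Good at h2
    push Not at h2
    obtain ⟨u, h3, h4, h5, h6⟩ := h2
    rw [Set.mem_iUnion₂]
    refine ⟨u, ?_, h1, fun x hx hx' => ?_⟩
    · rw [hU, mem_filter, mem_range]
      exact ⟨h4, h3, h5⟩
    · rw [hI, mem_filter] at hx
      obtain ⟨b, hb, h7, h8⟩ := hx'
      have h9 := h6 (av k M (fun x => ξ x ω) x + b) ⟨x, hx.1, hx.2.1, hx.2.2, b, hb, rfl⟩ (by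
        unfold av; exact h7)
      unfold av at h9
      dsimp only at h9
      omega
  calc μ _ ≤ μ (⋃ u ∈ U, {ω | Good k M g t N X r l (fun x => ξ x ω) j ∧
        ∀ x ∈ I, ξ x ω ∉ G u (fun y => ξ y ω) x}) := measure_mono hsub
    _ ≤ ∑ u ∈ U, μ {ω | Good k M g t N X r l (fun x => ξ x ω) j ∧
        ∀ x ∈ I, ξ x ω ∉ G u (fun y => ξ y ω) x} := measure_biUnion_finset_le _ _
    _ ≤ ∑ _u ∈ U, ENNReal.ofReal (1 - q) ^ I.card := sum_le_sum key
    _ = U.card * ENNReal.ofReal (1 - q) ^ I.card := by rw [sum_const, nsmul_eq_mul]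
    _ ≤ ((2 * N) ^ k : ℕ) * ENNReal.ofReal (1 - q) ^ I.card := by
        gcongr
        exact (card_filter_le _ _).trans (card_range _).le

end Pool.Agent.Helper65.WP
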