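import Mathlib

set_option autoImplicit false

/-! The classical local theorem: if `k` is not `4, 8, 16, …` then every number is a sum of
`2 k + 1` `k`-th powers modulo every `M`. -/

namespace Pool.Agent.Helper65.WP

open Finset

/-- every number is a sum of `s` `k`-th powers modulo `m` -/
def Loc (k s m : ℕ) : Prop := ∀ n : ℕ, ∃ y : Fin s → ℕ, n ≡ ∑ i, y i ^ k [MOD m]

lemma Loc.mono {k s s' m : ℕ} (hk : 0 < k) (h : Loc k s m) (hs : s ≤ s') : Loc k s' m := by
  intro n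
  obtain ⟨y, hy⟩ := h n
  obtain ⟨d, rfl⟩ := Nat.exists_eq_add_of_le hs
  refine ⟨Fin.append y (fun _ => 0), ?_⟩
  rw [Fin.sum_univ_add]
  simpa [hk.ne'] using hy

lemma Loc.of_dvd {k s m m' : ℕ} (h : Loc k s m) (hm : m' ∣ m) : Loc k s m' := by
  intro n
  obtain ⟨y, hy⟩ := h n
  exact ⟨y, hy.of_dvd hm⟩

lemma Loc.coprime {k s a b : ℕ} (ha : Loc k s a) (hb : Loc k s b) (hab : a.Coprime b) :
    Loc k s (a * b) := by
  intro n
  obtain ⟨y, hy⟩ := ha n
  obtain ⟨z, hz⟩ := hb n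
  let w : Fin s → ℕ := fun i => (Nat.chineseRemainder hab (y i) (z i) : ℕ)
  refine ⟨w, (Nat.modEq_and_modEq_iff_modEq_mul hab).1 ⟨?_, ?_⟩⟩
  · exact hy.trans (Nat.ModEq.sum fun i _ =>
      ((Nat.chineseRemainder hab (y i) (z i)).2.1.symm.pow k))
  · exact hz.trans (Nat.ModEq.sum fun i _ =>
      ((Nat.chineseRemainder hab (y i) (z i)).2.2.symm.pow k))

/-- lifting a solution -/
lemma Loc.lift {k s q Q : ℕ} (hq : q ∣ Q) (hQ : 0 < Q) (h : Loc k s q)
    (hl : ∀ c : ℕ, c ≡ 1 [MOD q] → ∃ y, c ≡ y ^ k [MOD Q]) : Loc k (s + 1) Q := by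
  intro n
  have hq0 : 0 < q := Nat.pos_of_dvd_of_pos hq hQ
  obtain ⟨y, hy⟩ := h (n + (q - 1))
  set S := ∑ i, y i ^ k with hS
  have h1 : n + (Q - 1) * S + S ≡ n [MOD Q] := by
    have : n + (Q - 1) * S + S = n + Q * S := by
      obtain ⟨Q', rfl⟩ : ∃ Q', Q = Q' + 1 := ⟨Q - 1, by omega⟩
      simp only [Nat.add_sub_cancel]
      ring
    rw [this]
    simp [Nat.ModEq]
  have h2 : n + (Q - 1) * S ≡ 1 [MOD q] := by
    have h3 : n + (Q - 1) * S + S ≡ 1 + S [MOD q] := by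
      refine (h1.of_dvd hq).trans ?_
      calc n ≡ n + q [MOD q] := by simp [Nat.ModEq]
        _ = 1 + (n + (q - 1)) := by omega
        _ ≡ 1 + S [MOD q] := hy.add_left 1
    exact Nat.ModEq.add_right_cancel' S h3
  obtain ⟨z, hz⟩ := hl _ h2
  refine ⟨Fin.cons z y, ?_⟩
  rw [Fin.sum_univ_succ]
  simp only [Fin.cons_zero, Fin.cons_succ]
  rw [← hS]
  exact h1.symm.trans (hz.add_right S)

/-- powers of elements close to `1` -/
lemma pow_p {p : ℕ} (hp : p.Prime) {a : ℕ} (ha : 1 ≤ a) {x : ℤ} (h : (p : ℤ) ^ a ∣ x - 1) :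
    (p : ℤ) ^ (a + 1) ∣ x ^ p - 1 := by
  obtain ⟨u, hu⟩ := h
  have hx : x = p ^ a * u + 1 := by linarith
  obtain ⟨r, hr⟩ := exists_add_pow_prime_eq hp ((p : ℤ) ^ a * u) 1
  rw [hx, hr]
  have h2 : ((p : ℤ) ^ a * u) ^ p = p ^ (a + 1) * (p ^ (a * p - (a + 1)) * u ^ p) := by
    rw [mul_pow, ← mul_assoc, ← pow_add, ← pow_mul]
    congr 2
    have : a + 1 ≤ a * p := by
      have := hp.two_le
      nlinarith
    omega
  rw [h2]
  refine ⟨p ^ (a * p - (a + 1)) * u ^ p + u * r, ?_⟩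
  ring

lemma pow_pm {p : ℕ} (hp : p.Prime) {a : ℕ} (ha : 1 ≤ a) {x : ℤ} (h : (p : ℤ) ^ a ∣ x - 1) (m : ℕ) :
    (p : ℤ) ^ (a + m) ∣ x ^ (p ^ m) - 1 := by
  induction m with
  | zero => simpa using h
  | succ m ih =>
    have := pow_p hp (by omega) ih
    rw [← pow_mul] at this
    exact this

lemma cyc {G : Type*} [Group G] [Finite G] [IsCyclic G] {k m : ℕ} (x : G) (hx : x ^ m = 1)
    (hm : Nat.gcd (Nat.card G) k * m ∣ Nat.card G) : ∃ y : G, y ^ k = x := by
  obtain ⟨g, hg⟩ := IsCyclic.exists_generator (α := G)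
  have hord : orderOf g = Nat.card G := orderOf_eq_card_of_forall_mem_zpowers hg
  obtain ⟨a, ha⟩ := Subgroup.mem_zpowers_iff.1 (hg x)
  have hN : 0 < Nat.card G := Nat.card_pos
  have hm0 : 0 < m := by
    rcases Nat.eq_zero_or_pos m with h | h
    · rw [h, mul_zero] at hm
      exact absurd (Nat.eq_zero_of_zero_dvd hm) hN.ne'
    · exact h
  have h1 : ((Nat.card G : ℕ) : ℤ) ∣ a * m := by
    rw [← hord]
    apply orderOf_dvd_iff_zpow_eq_one.2
    rw [zpow_mul, ha, zpow_natCast, hx]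
  have h2 : ((Nat.gcd (Nat.card G) k : ℕ) : ℤ) ∣ a := by
    have h3 : ((Nat.gcd (Nat.card G) k * m : ℕ) : ℤ) ∣ a * m := (Int.natCast_dvd_natCast.2 hm).trans h1
    push_cast at h3
    exact Int.dvd_of_mul_dvd_mul_right (by exact_mod_cast hm0.ne') h3
  obtain ⟨b, hb⟩ := h2
  have h4 := Nat.gcd_eq_gcd_ab (Nat.card G) k
  refine ⟨g ^ (Nat.gcdB (Nat.card G) k * b), ?_⟩
  rw [← zpow_natCast, ← zpow_mul, ← ha, hb, h4]
  have h5 : ((Nat.card G : ℤ) * (Nat.card G).gcdA k + k * (Nat.card G).gcdB k) * b =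
      (Nat.card G : ℤ) * ((Nat.card G).gcdA k * b) + (Nat.card G).gcdB k * b * k := by ring
  rw [h5, zpow_add, zpow_mul g (Nat.card G : ℤ), zpow_natCast, pow_card_eq_one', one_zpow, one_mul]

lemma lift_odd {p τ k0 e : ℕ} (hp : p.Prime) (hp2 : p ≠ 2) (hk0 : ¬ p ∣ k0) (he : τ + 1 ≤ e) (c : ℕ)
    (hc : c ≡ 1 [MOD p ^ (τ + 1)]) : ∃ y, c ≡ y ^ (p ^ τ * k0) [MOD p ^ e] := by
  have : Fact p.Prime := ⟨hp⟩
  have : NeZero (p ^ e) := ⟨(pow_pos hp.pos e).ne'⟩
  have := ZMod.isCyclic_units_of_prime_pow p hp hp2 e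
  have hcp : c.Coprime (p ^ e) := by
    apply Nat.Coprime.pow_right
    rw [Nat.coprime_comm, hp.coprime_iff_not_dvd]
    intro hd
    have h1 : c ≡ 1 [MOD p] := hc.of_dvd (dvd_pow_self p (by omega))
    have h2 : p ∣ 1 := (h1.dvd_iff dvd_rfl).1 hd
    exact hp.one_lt.ne' (Nat.dvd_one.1 h2)
  set u : (ZMod (p ^ e))ˣ := ZMod.unitOfCoprime c hcp with hu
  have hcard : Nat.card (ZMod (p ^ e))ˣ = p ^ (e - 1) * (p - 1) := by
    rw [Nat.card_eq_fintype_card, ZMod.card_units_eq_totient, Nat.totient_prime_pow hp (by omega)]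
  have h1 : u ^ (p ^ (e - 1 - τ)) = 1 := by
    apply Units.ext
    push_cast
    rw [hu, ZMod.coe_unitOfCoprime]
    have h2 : (p : ℤ) ^ (τ + 1) ∣ (c : ℤ) - 1 := by
      have := (Nat.modEq_iff_dvd.1 hc.symm)
      push_cast at this
      exact this
    have h3 := pow_pm hp (by omega) h2 (e - 1 - τ)
    have h4 : τ + 1 + (e - 1 - τ) = e := by omega
    rw [h4] at h3
    have h5 : ((((c : ℤ) ^ p ^ (e - 1 - τ) - 1 : ℤ)) : ZMod (p ^ e)) = 0 :=
      (ZMod.intCast_zmod_eq_zero_iff_dvd _ _).2 (by exact_mod_cast h3)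
    push_cast at h5
    exact sub_eq_zero.1 h5
  have h6 : Nat.gcd (Nat.card (ZMod (p ^ e))ˣ) (p ^ τ * k0) * p ^ (e - 1 - τ) ∣
      Nat.card (ZMod (p ^ e))ˣ := by
    rw [hcard]
    have h7 : p ^ (e - 1) * (p - 1) = p ^ τ * (p ^ (e - 1 - τ) * (p - 1)) := by
      rw [← mul_assoc, ← pow_add]
      congr 2
      omega
    have h8 : Nat.Coprime (p ^ (e - 1 - τ)) k0 :=
      Nat.Coprime.pow_left _ ((hp.coprime_iff_not_dvd).2 hk0)
    rw [h7, Nat.gcd_mul_left, Nat.Coprime.gcd_mul_left_cancel _ h8, mul_assoc]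
    apply Nat.mul_dvd_mul_left
    rw [mul_comm]
    exact Nat.mul_dvd_mul_left _ (Nat.gcd_dvd_left _ _)
  obtain ⟨y, hy⟩ := cyc u h1 h6
  refine ⟨(y : ZMod (p ^ e)).val, ?_⟩
  rw [← ZMod.natCast_eq_natCast_iff]
  push_cast
  rw [ZMod.natCast_zmod_val, ← Units.val_pow_eq_pow_val, hy, hu, ZMod.coe_unitOfCoprime]

/-- the number of the `k`-th powers modulo `p` -/
lemma card_T {p τ k0 : ℕ} [hp : Fact p.Prime] (hk0 : 0 < k0) :
    p - 1 ≤ k0 * ((univ : Finset (ZMod p)ˣ).image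
      fun x : (ZMod p)ˣ => (x : ZMod p) ^ (p ^ τ * k0)).card := by
  have h := Finset.card_le_mul_card_image (s := (univ : Finset (ZMod p)ˣ))
    (f := fun x : (ZMod p)ˣ => (x : ZMod p) ^ (p ^ τ * k0)) k0 (by
      intro b _
      have h1 : ((univ : Finset (ZMod p)ˣ).filter
          fun x : (ZMod p)ˣ => (x : ZMod p) ^ (p ^ τ * k0) = b).card ≤
          (Polynomial.nthRoots k0 b).toFinset.card := by
        apply Finset.card_le_card_of_injOn (fun x : (ZMod p)ˣ => (x : ZMod p))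
        · intro x hx
          simp only [coe_filter, mem_univ, true_and, Set.mem_ofPred_eq] at hx
          simp only [mem_coe, Multiset.mem_toFinset]
          rw [Polynomial.mem_nthRoots hk0, ← hx, pow_mul, ZMod.pow_card_pow]
        · intro x _ y _ hxy
          exact Units.ext hxy
      exact h1.trans ((Multiset.toFinset_card_le _).trans (Polynomial.card_nthRoots k0 b)))
  rw [Finset.card_univ, ZMod.card_units] at h
  exact h

open Classical in
lemma loc_base {p τ k0 : ℕ} (hp : p.Prime) (hk0 : ¬ p ∣ k0) :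
    Loc (p ^ τ * k0) (2 * (p ^ τ * k0)) (p ^ (τ + 1)) := by
  have : Fact p.Prime := ⟨hp⟩
  have hk00 : 0 < k0 := Nat.pos_of_ne_zero (by rintro rfl; exact hk0 (dvd_zero p))
  obtain ⟨k, hk⟩ : ∃ k, k = p ^ τ * k0 := ⟨_, rfl⟩
  rw [← hk]
  have hkpos : 0 < k := by rw [hk]; exact Nat.mul_pos (pow_pos hp.pos _) hk00
  obtain ⟨q, hq⟩ : ∃ q, q = p ^ (τ + 1) := ⟨_, rfl⟩
  rw [← hq]
  have hqne : NeZero q := ⟨by rw [hq]; exact (pow_pos hp.pos _).ne'⟩
  let R := ZMod q
  set T := ((univ : Finset (ZMod p)ˣ).image fun x : (ZMod p)ˣ => (x : ZMod p) ^ k) with hT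
  have hTc : p - 1 ≤ k0 * T.card := by
    rw [hT, hk]; exact card_T hk00
  let S : ℕ → Finset R := fun j => univ.filter fun n => ∃ y : Fin j → R, n = ∑ i, y i ^ k
  have hS0 : ∀ j, (0 : R) ∈ S j := by
    intro j
    simp only [S, mem_filter, mem_univ, true_and]
    exact ⟨fun _ => 0, by simp [hkpos.ne']⟩
  have hSs : ∀ j, S j ⊆ S (j + 1) := by
    intro j n hn
    simp only [S, mem_filter, mem_univ, true_and] at hn ⊢
    obtain ⟨y, rfl⟩ := hn
    refine ⟨Fin.cons 0 y, ?_⟩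
    rw [Fin.sum_univ_succ]
    simp [hkpos.ne']
  have hS1 : ∀ j, ∀ n ∈ S j, n + 1 ∈ S (j + 1) := by
    intro j n hn
    simp only [S, mem_filter, mem_univ, true_and] at hn ⊢
    obtain ⟨y, rfl⟩ := hn
    refine ⟨Fin.cons 1 y, ?_⟩
    rw [Fin.sum_univ_succ]
    simp [add_comm]
  have hSm : ∀ j, ∀ x : R, ∀ n ∈ S j, x ^ k * n ∈ S j := by
    intro j x n hn
    simp only [S, mem_filter, mem_univ, true_and] at hn ⊢
    obtain ⟨y, rfl⟩ := hn
    refine ⟨fun i => x * y i, ?_⟩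
    rw [mul_sum]
    exact sum_congr rfl fun i _ => by rw [mul_pow]
  -- the orbits
  have horb : ∀ z : R, z ≠ 0 → T.card ≤
      ((univ : Finset Rˣ).image fun x : Rˣ => (x : R) ^ k * z).card := by
    intro z hz
    have hrep : ∀ c ∈ T, ∃ x : ℕ, x.Coprime p ∧ (x : ZMod p) ^ k = c := by
      intro c hc
      rw [hT, mem_image] at hc
      obtain ⟨x, -, hx⟩ := hc
      refine ⟨(x : ZMod p).val, ZMod.val_coe_unit_coprime x, ?_⟩
      rw [ZMod.natCast_zmod_val, hx]
    choose! f hf1 hf2 using hrep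
    apply Finset.card_le_card_of_injOn (fun c => ((f c : ℕ) : R) ^ k * z)
    · intro c hc
      simp only [coe_image, coe_univ, Set.image_univ, Set.mem_range]
      exact ⟨ZMod.unitOfCoprime (f c) (by rw [hq]; exact Nat.Coprime.pow_right _ (hf1 c hc)), by
        rw [ZMod.coe_unitOfCoprime]⟩
    · intro c hc d hd hcd
      by_contra hne
      apply hz
      have h1 : ((((f c : ℕ) : ℤ) ^ k - ((f d : ℕ) : ℤ) ^ k) * (z.val : ℤ) : ℤ) ≡ 0 [ZMOD (q : ℕ)] := by
        rw [← ZMod.intCast_eq_intCast_iff]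
        push_cast
        rw [ZMod.natCast_zmod_val, sub_mul]
        exact sub_eq_zero.2 hcd
      have h2 : ((q : ℕ) : ℤ) ∣ (((f c : ℕ) : ℤ) ^ k - ((f d : ℕ) : ℤ) ^ k) * (z.val : ℤ) :=
        Int.modEq_zero_iff_dvd.1 h1
      have h3 : IsCoprime ((q : ℕ) : ℤ) (((f c : ℕ) : ℤ) ^ k - ((f d : ℕ) : ℤ) ^ k) := by
        rw [hq]
        push_cast
        apply IsCoprime.pow_left
        rw [Prime.coprime_iff_not_dvd (Nat.prime_iff_prime_int.1 hp)]
        intro hd'
        apply hne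
        have h4 : (((((f c : ℕ) : ℤ) ^ k - ((f d : ℕ) : ℤ) ^ k : ℤ)) : ZMod p) = 0 :=
          (ZMod.intCast_zmod_eq_zero_iff_dvd _ _).2 hd'
        push_cast at h4
        rw [hf2 c hc, hf2 d hd] at h4
        exact sub_eq_zero.1 h4
      have h5 := h3.dvd_of_dvd_mul_left h2
      have h6 : (((z.val : ℤ) : ℤ) : ZMod q) = 0 :=
        (ZMod.intCast_zmod_eq_zero_iff_dvd _ _).2 h5
      push_cast at h6
      rwa [ZMod.natCast_zmod_val] at h6
  have hcardR : (univ : Finset R).card = q := by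
    rw [Finset.card_univ]; exact ZMod.card _
  have key : ∀ j, S j = univ ∨ 1 + j * T.card ≤ (S j).card := by
    intro j
    induction j with
    | zero =>
      right
      rw [zero_mul, add_zero]
      exact Finset.card_pos.2 ⟨0, hS0 0⟩
    | succ j ih =>
      by_cases hj : S j = univ
      · left
        apply Finset.eq_univ_of_forall
        intro x
        exact hSs j (by rw [hj]; exact mem_univ x)
      · right
        have ih' := ih.resolve_left hj
        have hex : ∃ z ∈ S (j + 1), z ∉ S j := by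
          by_contra hcon
          push Not at hcon
          apply hj
          apply Finset.eq_univ_of_forall
          intro x
          have : ∀ n : ℕ, ((n : ℕ) : R) ∈ S j := by
            intro n
            induction n with
            | zero => simpa using hS0 j
            | succ n ihn =>
              push_cast
              exact hcon _ (hS1 j _ ihn)
          have := this (ZMod.val x)
          rwa [ZMod.natCast_zmod_val] at this
        obtain ⟨z, hz1, hz2⟩ := hex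
        have hz0 : z ≠ 0 := by rintro rfl; exact hz2 (hS0 j)
        have hdisj : Disjoint (S j) ((univ : Finset Rˣ).image fun x : Rˣ => (x : R) ^ k * z) := by
          rw [Finset.disjoint_left]
          intro w hw hw'
          rw [mem_image] at hw'
          obtain ⟨x, -, rfl⟩ := hw'
          apply hz2
          have := hSm j ((x⁻¹ : Rˣ) : R) _ hw
          rwa [← mul_assoc, ← mul_pow, Units.inv_mul, one_pow, one_mul] at this
        have hsub : S j ∪ ((univ : Finset Rˣ).image fun x : Rˣ => (x : R) ^ k * z) ⊆ S (j + 1) := by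
          apply union_subset (hSs j)
          intro w hw
          rw [mem_image] at hw
          obtain ⟨x, -, rfl⟩ := hw
          exact hSm (j + 1) _ _ hz1
        have h1 := Finset.card_le_card hsub
        rw [Finset.card_union_of_disjoint hdisj] at h1
        have h2 := horb z hz0
        calc 1 + (j + 1) * T.card = 1 + j * T.card + T.card := by ring
          _ ≤ _ := by omega
  have hfin : S (2 * k) = univ := by
    rcases key (2 * k) with h | h
    · exact h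
    · apply (Finset.card_eq_iff_eq_univ _).1
      have h1 : (S (2 * k)).card ≤ q := by
        rw [← hcardR]; exact Finset.card_le_card (subset_univ _)
      have h2 : q ≤ 2 * k * T.card := by
        calc q = p ^ τ * p := by rw [hq, pow_succ]
          _ ≤ p ^ τ * (2 * (p - 1)) := Nat.mul_le_mul_left _ (by have := hp.two_le; omega)
          _ ≤ p ^ τ * (2 * (k0 * T.card)) := Nat.mul_le_mul_left _ (by omega)
          _ = 2 * k * T.card := by rw [hk]; ring
      have h3 : Fintype.card R = q := ZMod.card _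
      omega
  intro n
  have hn : ((n : ℕ) : R) ∈ S (2 * k) := by rw [hfin]; exact mem_univ _
  simp only [S, mem_filter, mem_univ, true_and] at hn
  obtain ⟨y, hy⟩ := hn
  refine ⟨fun i => (y i).val, ?_⟩
  rw [← ZMod.natCast_eq_natCast_iff, hy]
  push_cast
  exact sum_congr rfl fun i _ => by rw [ZMod.natCast_zmod_val]

lemma loc_odd {p k : ℕ} (hp : p.Prime) (hp2 : p ≠ 2) (hk : 0 < k) (e : ℕ) :
    Loc k (2 * k + 1) (p ^ e) := by
  obtain ⟨τ, k0, hk0, rfl⟩ := Nat.exists_eq_pow_mul_and_not_dvd hk.ne' p hp.ne_one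
  have hb := loc_base (τ := τ) hp hk0
  rcases Nat.lt_or_ge e (τ + 1) with he | he
  · exact (hb.of_dvd (pow_dvd_pow p he.le)).mono hk (by omega)
  · exact hb.lift (pow_dvd_pow p he) (pow_pos hp.pos _) fun c hc => lift_odd hp hp2 hk0 he c hc

/-- odd numbers are `k0`-th powers modulo `2 ^ e` for odd `k0` -/
lemma lift_two_odd {k0 e : ℕ} (hk0 : ¬ 2 ∣ k0) (he : 1 ≤ e) {c : ℕ} (hc : ¬ 2 ∣ c) :
    ∃ y, c ≡ y ^ k0 [MOD 2 ^ e] ∧ ¬ 2 ∣ y := by
  have : NeZero (2 ^ e) := ⟨by positivity⟩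
  have hcp : c.Coprime (2 ^ e) := by
    apply Nat.Coprime.pow_right
    rw [Nat.coprime_comm, Nat.prime_two.coprime_iff_not_dvd]
    exact hc
  set u : (ZMod (2 ^ e))ˣ := ZMod.unitOfCoprime c hcp with hu
  have hcard : Nat.card (ZMod (2 ^ e))ˣ = 2 ^ (e - 1) := by
    rw [Nat.card_eq_fintype_card, ZMod.card_units_eq_totient,
      Nat.totient_prime_pow Nat.prime_two (by omega)]
    simp
  have hco : (Nat.card (ZMod (2 ^ e))ˣ).Coprime k0 := by
    rw [hcard]
    exact Nat.Coprime.pow_left _ ((Nat.prime_two.coprime_iff_not_dvd).2 hk0)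
  obtain ⟨y, hy⟩ := (powCoprime hco).surjective u
  have hy' : y ^ k0 = u := hy
  refine ⟨(y : ZMod (2 ^ e)).val, ?_, ?_⟩
  · rw [← ZMod.natCast_eq_natCast_iff]
    push_cast
    rw [ZMod.natCast_zmod_val, ← Units.val_pow_eq_pow_val, hy', hu, ZMod.coe_unitOfCoprime]
  · have h1 := ZMod.val_coe_unit_coprime y
    rw [Nat.coprime_comm] at h1
    exact (Nat.prime_two.coprime_iff_not_dvd).1 (Nat.Coprime.of_dvd_left (dvd_pow_self 2 (by omega)) h1)

lemma sq_lift {j : ℕ} (hj : 2 ≤ j) {c : ℤ} (hc : (2 : ℤ) ^ (j + 1) ∣ c - 1) (e : ℕ) :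
    ∃ y : ℤ, (2 : ℤ) ^ j ∣ y - 1 ∧ (2 : ℤ) ^ (j + 1 + e) ∣ y ^ 2 - c := by
  induction e with
  | zero =>
    refine ⟨1, by simp, ?_⟩
    rw [add_zero, one_pow, ← dvd_neg, neg_sub]
    exact hc
  | succ e ih =>
    obtain ⟨y, hy1, m, hm⟩ := ih
    have hyodd : ∃ v : ℤ, y = 2 * v + 1 := by
      obtain ⟨w, hw⟩ := hy1
      refine ⟨2 ^ (j - 1) * w, ?_⟩
      have : (2 : ℤ) ^ j = 2 * 2 ^ (j - 1) := by
        rw [← pow_succ']; congr 1; omega
      rw [this] at hw
      linarith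
    obtain ⟨v, hv⟩ := hyodd
    obtain ⟨z, hz | hz⟩ := Int.even_or_odd' m
    · refine ⟨y, hy1, z, ?_⟩
      rw [hm, hz, ← add_assoc, pow_succ]
      ring
    · refine ⟨y + 2 ^ (j + e), ?_, ?_⟩
      · have : y + 2 ^ (j + e) - 1 = (y - 1) + 2 ^ j * 2 ^ e := by rw [pow_add]; ring
        rw [this]
        exact dvd_add hy1 (dvd_mul_right _ _)
      · refine ⟨z + v + 1 + 2 ^ (j + e - 2), ?_⟩
        have e1 : (y + 2 ^ (j + e)) ^ 2 - c = (y ^ 2 - c) + 2 * 2 ^ (j + e) * y + (2 ^ (j + e)) ^ 2 := by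
          ring
        have e2 : (2 : ℤ) ^ (j + 1 + e) = 2 * 2 ^ (j + e) := by
          rw [← pow_succ']; congr 1; omega
        have e3 : (2 : ℤ) ^ (j + 1 + (e + 1)) = 4 * 2 ^ (j + e) := by
          have : j + 1 + (e + 1) = (j + e) + 2 := by omega
          rw [this, pow_add]; ring
        have e4 : ((2 : ℤ) ^ (j + e)) ^ 2 = 4 * 2 ^ (j + e) * 2 ^ (j + e - 2) := by
          have : (2 : ℤ) ^ (j + e) = 4 * 2 ^ (j + e - 2) := by
            have h4 : (4 : ℤ) = 2 ^ 2 := by norm_num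
            rw [h4, ← pow_add]; congr 1; omega
          nth_rewrite 1 [this]
          rw [mul_pow]
          rw [this]
          ring
        rw [e1, hm, e2, e3, e4, hz, hv]
        ring

lemma two_pow_lift (τ : ℕ) {c : ℤ} (hc : (2 : ℤ) ^ (τ + 2) ∣ c - 1) (e : ℕ) :
    ∃ y : ℤ, (2 : ℤ) ^ 2 ∣ y - 1 ∧ (2 : ℤ) ^ e ∣ y ^ (2 ^ τ) - c := by
  induction τ generalizing c with
  | zero => exact ⟨c, hc, by simp⟩
  | succ τ ih =>
    obtain ⟨y1, hy1, hy2⟩ := sq_lift (j := τ + 2) (by omega) (by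
      have : τ + 2 + 1 = τ + 1 + 2 := by omega
      rw [this]; exact hc) e
    obtain ⟨y, hy3, hy4⟩ := ih hy1
    refine ⟨y, hy3, ?_⟩
    have h1 : (2 : ℤ) ^ e ∣ y1 ^ 2 - c := (pow_dvd_pow 2 (by omega)).trans hy2
    have h2 : (2 : ℤ) ^ e ∣ (y ^ (2 ^ τ)) ^ 2 - y1 ^ 2 := hy4.trans (sub_dvd_pow_sub_pow _ _ 2)
    have h3 : y ^ (2 ^ (τ + 1)) - c = ((y ^ (2 ^ τ)) ^ 2 - y1 ^ 2) + (y1 ^ 2 - c) := by
      rw [← pow_mul, ← pow_succ]; ring
    rw [h3]
    exact dvd_add h2 h1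

lemma lift_two_even {τ k0 e : ℕ} (hk0 : ¬ 2 ∣ k0) (he : τ + 2 ≤ e) (c : ℕ)
    (hc : c ≡ 1 [MOD 2 ^ (τ + 2)]) : ∃ y, c ≡ y ^ (2 ^ τ * k0) [MOD 2 ^ e] := by
  have h1 : (2 : ℤ) ^ (τ + 2) ∣ (c : ℤ) - 1 := by
    have := (Nat.modEq_iff_dvd.1 hc.symm)
    push_cast at this
    exact this
  obtain ⟨z, hz1, hz2⟩ := two_pow_lift τ h1 e
  -- make it natural
  obtain ⟨w, hw⟩ : ∃ w : ℕ, (w : ℤ) ≡ z [ZMOD (2 : ℤ) ^ e] := by
    refine ⟨(z % 2 ^ e).toNat, ?_⟩
    rw [Int.toNat_of_nonneg (Int.emod_nonneg _ (by positivity))]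
    exact Int.mod_modEq _ _
  have hwodd : ¬ 2 ∣ w := by
    intro hd
    have h2 : (2 : ℤ) ∣ z - w := (dvd_pow_self (2 : ℤ) (by omega : e ≠ 0)).trans hw.dvd
    have h3 : (2 : ℤ) ∣ (w : ℤ) := by exact_mod_cast hd
    have h4 : (2 : ℤ) ∣ z - 1 := (by norm_num : (2 : ℤ) ∣ 2 ^ 2).trans hz1
    omega
  obtain ⟨y, hy, -⟩ := lift_two_odd (e := e) hk0 (by omega) hwodd
  refine ⟨y, ?_⟩
  have h5 : (c : ℤ) ≡ (w : ℤ) ^ (2 ^ τ) [ZMOD (2 : ℤ) ^ e] := by
    have h6 : (c : ℤ) ≡ z ^ (2 ^ τ) [ZMOD (2 : ℤ) ^ e] := Int.modEq_iff_dvd.2 hz2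
    exact h6.trans (hw.symm.pow _)
  have h7 : c ≡ w ^ (2 ^ τ) [MOD 2 ^ e] := by
    rw [← Int.natCast_modEq_iff]
    push_cast
    exact h5
  refine h7.trans ?_
  rw [mul_comm (2 ^ τ) k0, pow_mul]
  exact hy.pow _

lemma loc_two_base {k q : ℕ} (hk : 0 < k) (hq : 0 < q) : Loc k (q - 1) q := by
  intro n
  refine ⟨fun i => if (i : ℕ) < n % q then 1 else 0, ?_⟩
  have h1 : ∑ i : Fin (q - 1), (if (i : ℕ) < n % q then 1 else 0) ^ k = n % q := by
    have h2 : ∀ i : ℕ, (if i < n % q then 1 else 0) ^ k = if i < n % q then 1 else 0 := by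
      intro i
      split_ifs
      · simp
      · simp [hk.ne']
    simp only [h2]
    rw [Fin.sum_univ_eq_sum_range (fun i => if i < n % q then 1 else 0) (q - 1),
      Finset.sum_ite, Finset.sum_const_zero, add_zero, Finset.sum_const, smul_eq_mul, mul_one]
    have h3 : (range (q - 1)).filter (fun i => i < n % q) = range (n % q) := by
      ext i
      have := Nat.mod_lt n hq
      simp only [mem_filter, mem_range]
      omega
    rw [h3, card_range]
  rw [h1]
  exact (Nat.mod_modEq n q).symm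

lemma loc_two {k : ℕ} (hk : 0 < k) (hk2 : k ≠ 2) (hk4 : ¬ ∃ a, 2 ≤ a ∧ k = 2 ^ a) (e : ℕ) :
    Loc k (2 * k + 1) (2 ^ e) := by
  obtain ⟨τ, k0, hk0, hkk⟩ := Nat.exists_eq_pow_mul_and_not_dvd hk.ne' 2 (by norm_num)
  rcases Nat.eq_zero_or_pos τ with hτ | hτ
  · subst hτ
    rw [pow_zero, one_mul] at hkk
    subst hkk
    have h1 : Loc k 1 (2 ^ 1) := loc_two_base (q := 2) hk (by norm_num)
    rcases Nat.lt_or_ge e 1 with he | he
    · exact (h1.of_dvd (pow_dvd_pow 2 he.le)).mono hk (by omega)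
    · refine (h1.lift (pow_dvd_pow 2 he) (by positivity) ?_).mono hk (by omega)
      intro c hc
      obtain ⟨y, hy, -⟩ := lift_two_odd (e := e) (c := c) hk0 he (by
        rw [pow_one] at hc
        intro hd
        have := (hc.dvd_iff dvd_rfl).1 hd
        omega)
      exact ⟨y, hy⟩
  · have hk03 : 3 ≤ k0 := by
      by_contra hcon
      have h1 : k0 = 1 := by
        rcases Nat.lt_or_ge k0 3 with h | h
        · interval_cases k0
          · simp at hk0
          · rfl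
          · simp at hk0
        · exact absurd h hcon
      rw [h1, mul_one] at hkk
      rcases Nat.lt_or_ge τ 2 with h | h
      · have : τ = 1 := by omega
        rw [this] at hkk
        exact hk2 hkk
      · exact hk4 ⟨τ, h, hkk⟩
    have hle : 2 ^ (τ + 2) ≤ 2 * k + 1 := by
      rw [hkk, pow_add]
      nlinarith [Nat.one_le_two_pow (n := τ)]
    have h1 : Loc k (2 ^ (τ + 2) - 1) (2 ^ (τ + 2)) := loc_two_base hk (by positivity)
    rcases Nat.lt_or_ge e (τ + 2) with he | he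
    · exact (h1.of_dvd (pow_dvd_pow 2 he.le)).mono hk (by omega)
    · refine (h1.lift (pow_dvd_pow 2 he) (by positivity) ?_).mono hk
        (by have := Nat.one_le_two_pow (n := τ + 2); omega)
      intro c hc
      rw [hkk]
      exact lift_two_even hk0 he c hc

/-- **The local theorem.** -/
theorem loc_all {k : ℕ} (hk : 0 < k) (hk4 : ¬ ∃ a, 2 ≤ a ∧ k = 2 ^ a) {M : ℕ} (hM : 0 < M) :
    Loc k (2 * k + 1) M := by
  by_cases hk2 : k = 2
  · subst hk2
    intro n
    obtain ⟨a, b, c, d, h⟩ := Nat.sum_four_squares n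
    have h5 : ∃ y : Fin 5 → ℕ, n ≡ ∑ i, y i ^ 2 [MOD M] := by
      refine ⟨![a, b, c, d, 0], ?_⟩
      rw [Fin.sum_univ_five, ← h]
      exact Nat.ModEq.refl _
    exact h5
  · have main : ∀ m : ℕ, 0 < m → Loc k (2 * k + 1) m := by
      intro m
      induction m using Nat.recOnPosPrimePosCoprime with
      | prime_pow p n hp hn =>
        intro _
        by_cases hp2 : p = 2
        · rw [hp2]; exact loc_two hk hk2 hk4 n
        · exact loc_odd hp hp2 hk n
      | zero => intro h; omega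
      | one =>
        intro _ n
        exact ⟨fun _ => 0, Nat.modEq_one⟩
      | coprime a b ha hb hab iha ihb =>
        intro _
        exact (iha (by omega)).coprime (ihb (by omega)) hab
    exact main M hM

end Pool.Agent.Helper65.WP
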