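import Pool.Agent.Helper65.WP.Final
import Pool.Agent.Helper65.WP.Loc

set_option autoImplicit false

/-! The exceptional exponents `4, 8, 16, …`. -/

namespace Pool.Agent.Helper65.WP

open Finset Filter

lemma two_pow_ge {a : ℕ} (ha : 2 ≤ a) : a + 2 ≤ 2 ^ a := by
  induction a, ha using Nat.le_induction with
  | base => norm_num
  | succ a ha ih =>
    calc a + 1 + 2 ≤ 2 * (a + 2) := by omega
      _ ≤ 2 * 2 ^ a := Nat.mul_le_mul_left _ ih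
      _ = 2 ^ (a + 1) := by rw [pow_succ]; ring

lemma odd_pow {a : ℕ} (ha : 1 ≤ a) {x : ℤ} (hx : ¬ 2 ∣ x) : (2 : ℤ) ^ (a + 2) ∣ x ^ (2 ^ a) - 1 := by
  have h1 : (2 : ℤ) ^ 3 ∣ x ^ 2 - 1 := by
    obtain ⟨w, hw⟩ : ∃ w, x = 2 * w + 1 := ⟨x / 2, by omega⟩
    obtain ⟨z, hz⟩ : (2 : ℤ) ∣ w * (w + 1) := (Int.even_mul_succ_self w).two_dvd
    refine ⟨z, ?_⟩
    rw [hw]
    linear_combination 4 * hz
  have h2 := pow_pm Nat.prime_two (by norm_num) (x := x ^ 2) (a := 3) (by exact_mod_cast h1) (a - 1)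
  have h3 : 3 + (a - 1) = a + 2 := by omega
  have h4 : x ^ 2 ^ a = (x ^ 2) ^ 2 ^ (a - 1) := by
    rw [← pow_mul, ← pow_succ']
    congr 2
    omega
  rw [h3] at h2
  rw [h4]
  exact_mod_cast h2

lemma exceptional {a M : ℕ} (ha : 2 ≤ a) (hM : 4 * 2 ^ a ∣ M) (v : ℕ → ℕ) :
    ∃ᶠ n : ℕ in atTop, ¬ ∃ x : Fin (2 * 2 ^ a + 1) → ℕ, n = ∑ i, (x i ^ (2 ^ a) + M * v (x i)) := by
  rw [frequently_atTop]
  intro b
  refine ⟨(b + 1) * (4 * 2 ^ a) - 1, ?_, ?_⟩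
  · have : b + 1 ≤ (b + 1) * (4 * 2 ^ a) := Nat.le_mul_of_pos_right _ (by positivity)
    omega
  · rintro ⟨x, hx⟩
    have hterm : ∀ y : ℕ, y ^ (2 ^ a) + M * v y ≡ (if 2 ∣ y then 0 else 1) [MOD 4 * 2 ^ a] := by
      intro y
      have h1 : y ^ (2 ^ a) + M * v y ≡ y ^ (2 ^ a) [MOD 4 * 2 ^ a] := by
        obtain ⟨m, rfl⟩ := hM
        rw [mul_assoc]
        simp [Nat.ModEq]
      refine h1.trans ?_
      have h24 : 4 * 2 ^ a = 2 ^ (a + 2) := by rw [pow_add]; ring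
      rw [h24]
      split_ifs with hy
      · apply (Nat.modEq_zero_iff_dvd).2
        have h2 : a + 2 ≤ 2 ^ a := two_pow_ge ha
        exact (pow_dvd_pow 2 h2).trans (pow_dvd_pow_of_dvd hy _)
      · rw [← Int.natCast_modEq_iff, Int.modEq_comm, Int.modEq_iff_dvd]
        push_cast
        exact odd_pow (by omega) (by exact_mod_cast hy)
    have hsum : ∑ i, (x i ^ (2 ^ a) + M * v (x i)) ≡
        ∑ i : Fin (2 * 2 ^ a + 1), (if 2 ∣ x i then 0 else 1) [MOD 4 * 2 ^ a] :=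
      Nat.ModEq.sum fun i _ => hterm (x i)
    rw [← hx] at hsum
    set c := ∑ i : Fin (2 * 2 ^ a + 1), (if 2 ∣ x i then 0 else 1) with hc
    have hcle : c ≤ 2 * 2 ^ a + 1 := by
      calc c ≤ ∑ i : Fin (2 * 2 ^ a + 1), 1 := sum_le_sum fun i _ => by split_ifs <;> simp
        _ = _ := by simp
    have h4 : 4 ≤ 2 ^ a := by
      calc 4 = 2 ^ 2 := by norm_num
        _ ≤ 2 ^ a := Nat.pow_le_pow_right (by norm_num) ha
    have h5 : (b + 1) * (4 * 2 ^ a) - 1 = b * (4 * 2 ^ a) + (4 * 2 ^ a - 1) := by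
      rw [add_mul, one_mul]
      omega
    rw [h5] at hsum
    have h6 : 4 * 2 ^ a - 1 ≡ c [MOD 4 * 2 ^ a] := by
      refine Nat.ModEq.trans ?_ hsum
      simp [Nat.ModEq]
    have h7 := Nat.ModEq.eq_of_lt_of_lt h6 (by omega) (by omega)
    omega

end Pool.Agent.Helper65.WP
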