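import Pool.Agent.Helper65.WP.Main

set_option autoImplicit false

/-! The almost sure local-global principle for sums of `2 k + 1` perturbed powers. -/

namespace Pool.Agent.Helper65.WP

open MeasureTheory ProbabilityTheory Finset Filter Topology
open scoped ENNReal

lemma SS_terms' {k M g t N : ℕ} {X : Set ℕ} {r v : ℕ → ℕ} {j b m : ℕ} (hm : g + j = m)
    (h : b ∈ SS k M g t N X r v j) :
    ∃ x : Fin m → ℕ, (∀ i, 0 < x i) ∧ b = ∑ i, av k M v (x i) := by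
  subst hm
  exact SS_terms h

/-- the Borel–Cantelli lemma with a bound for the large indices only -/
lemma bc {Ω : Type*} [MeasurableSpace Ω] {μ : Measure Ω} {s : ℕ → Set Ω}
    (h : ∀ᶠ N : ℕ in atTop, μ (s N) ≤ ENNReal.ofReal (1 / (N : ℝ) ^ 2)) :
    ∀ᵐ ω ∂μ, ∀ᶠ N : ℕ in atTop, ω ∉ s N := by
  obtain ⟨N1, hN1⟩ := eventually_atTop.1 h
  have hs : Summable fun N : ℕ => 1 / (N : ℝ) ^ 2 := Real.summable_one_div_nat_pow.2 (by norm_num)
  have h1 : ∑' N, μ (if N1 ≤ N then s N else ∅) ≠ ∞ := by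
    have h2 : ∑' N, μ (if N1 ≤ N then s N else ∅) ≤ ∑' N : ℕ, ENNReal.ofReal (1 / (N : ℝ) ^ 2) := by
      apply ENNReal.tsum_le_tsum
      intro N
      split_ifs with hN
      · exact hN1 N hN
      · simp
    refine ne_top_of_le_ne_top ?_ h2
    rw [← ENNReal.ofReal_tsum_of_nonneg (fun N => by positivity) hs]
    exact ENNReal.ofReal_ne_top
  have h3 := ae_eventually_notMem h1
  filter_upwards [h3] with ω hω
  filter_upwards [hω, eventually_ge_atTop N1] with N hN hN'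
  rwa [if_pos hN'] at hN

open Classical in
theorem main {k M : ℕ} (hk : 2 ≤ k) (hM : 0 < M) {X : Set ℕ}
    (hX : ∀ r : ℕ, ∀ᶠ N : ℕ in atTop, (N : ℝ) ^ (9 / 10 : ℝ) ≤
      (((Ioc N (2 * N)).filter fun x => x ∈ X ∧ x ≡ r [MOD M]).card : ℝ))
    {Ω : Type*} [MeasurableSpace Ω] {μ : Measure Ω} [IsProbabilityMeasure μ]
    {ξ : ℕ → Ω → ℕ} (hm : ∀ x, Measurable (ξ x)) (hi : iIndepFun ξ μ)
    (hle : ∀ x ω, ξ x ω ≤ ⌊(x : ℝ) ^ ((k : ℝ) / 5)⌋₊)
    (hu : ∀ x ∈ X, ∀ v ≤ ⌊(x : ℝ) ^ ((k : ℝ) / 5)⌋₊,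
      μ {ω | ξ x ω = v} = ((⌊(x : ℝ) ^ ((k : ℝ) / 5)⌋₊ + 1 : ℕ) : ℝ≥0∞)⁻¹) :
    ∀ᵐ ω ∂μ, ∀ᶠ n : ℕ in atTop,
      (∃ x : Fin (2 * k + 1) → ℕ, (∀ i, 0 < x i) ∧ n = ∑ i, (x i ^ k + M * ξ (x i) ω)) ↔
      ∃ y : Fin (2 * k + 1) → ℕ, n ≡ ∑ i, y i ^ k [MOD M] := by
  let ρ : (Fin (2 * k + 1) → Fin M) → ℕ → ℕ := fun r i =>
    if h : i < 2 * k + 1 then (r ⟨i, h⟩ : ℕ) else 0
  have hgt : 2 * k - k / 5 + (k / 5 + 1) = 2 * k + 1 := by omega
  have h1 : ∀ᵐ ω ∂μ, ∀ r : Fin (2 * k + 1) → Fin M, ∀ᶠ N : ℕ in atTop,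
      Good k M (2 * k - k / 5) (k / 5 + 1) N X (ρ r)
      (len (17 * (k : ℝ) / 100 / ((k / 5 + 1 : ℕ) : ℝ)) (k / 5 + 1) N) (fun x => ξ x ω)
        (k / 5 + 1) := by
    rw [ae_all_iff]
    intro r
    have := bc (prob_bad hk hM hX hm hi hle hu (ρ r))
    filter_upwards [this] with ω hω
    filter_upwards [hω] with N hN
    by_contra hcon
    exact hN hcon
  filter_upwards [h1] with ω hω
  have h2 := eventually_all.2 hω
  obtain ⟨N1, hN1⟩ := eventually_atTop.1 h2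
  filter_upwards [eventually_ge_atTop ((N1 + 1) ^ k)] with n hn
  constructor
  · rintro ⟨x, -, hx⟩
    refine ⟨x, ?_⟩
    rw [hx]
    exact Nat.ModEq.sum fun i _ => av_class (v := fun x => ξ x ω) rfl
  · rintro ⟨y, hy⟩
    obtain ⟨N, hN⟩ : ∃ N, N = Nat.findGreatest (fun m => m ^ k ≤ n) n := ⟨_, rfl⟩
    have hN2 : N1 + 1 ≤ N := by
      rw [hN]
      exact Nat.le_findGreatest ((Nat.le_self_pow (by omega) _).trans hn) hn
    have hN3 : N ^ k ≤ n := by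
      rw [hN]
      exact Nat.findGreatest_spec (P := fun m => m ^ k ≤ n) (m := N1 + 1)
        ((Nat.le_self_pow (by omega) _).trans hn) hn
    have hN4 : n < (N + 1) ^ k := by
      by_contra hcon
      push Not at hcon
      have := Nat.le_findGreatest (P := fun m => m ^ k ≤ n) (n := n)
        ((Nat.le_self_pow (n := k) (by omega) (N + 1)).trans hcon) hcon
      omega
    have hN5 : n < (2 * N) ^ k := hN4.trans_le (Nat.pow_le_pow_left (by omega) k)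
    let r : Fin (2 * k + 1) → Fin M := fun i => ⟨y i % M, Nat.mod_lt _ hM⟩
    have hsum : ∑ i ∈ range (2 * k - k / 5 + (k / 5 + 1)), ρ r i ^ k =
        ∑ i : Fin (2 * k + 1), (y i % M) ^ k := by
      rw [hgt, ← Fin.sum_univ_eq_sum_range (fun i => ρ r i ^ k)]
      apply Finset.sum_congr rfl
      intro i _
      simp only [ρ, r, dif_pos i.2, Fin.eta]
    have hcl : n ≡ ∑ i ∈ range (2 * k - k / 5 + (k / 5 + 1)), ρ r i ^ k [MOD M] := by
      rw [hsum]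
      exact hy.trans (Nat.ModEq.sum fun i _ => ((Nat.mod_modEq (y i) M).symm.pow k))
    obtain ⟨b, hb, hb1, hb2⟩ := hN1 N (by omega) r n (by
      have h3 : ((N : ℝ)) ^ k ≤ n := by exact_mod_cast hN3
      have h4 : (0 : ℝ) ≤ (1 / 2) ^ (k / 5 + 1 + 1) * (N : ℝ) ^ k := by positivity
      nlinarith) hN5 hcl
    rw [len_top, mul_one] at hb2
    have hb3 := SS_class hb
    have hb4 : b ≡ n [MOD M] := hb3.trans hcl.symm
    have hb5 := (Nat.modEq_iff_dvd' hb1).1 hb4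
    have hb6 : n - b = 0 := Nat.eq_zero_of_dvd_of_lt hb5 (by omega)
    have hb7 : b = n := by omega
    obtain ⟨x, hx, hx2⟩ := SS_terms' hgt hb
    exact ⟨x, hx, by rw [← hb7, hx2]; rfl⟩

end Pool.Agent.Helper65.WP
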