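import Mathlib

set_option autoImplicit false

/-! Independence: sets which depend on the coordinates in `F` are missed by all coordinates in `I`. -/

namespace Pool.Agent.Helper65.WP

open MeasureTheory ProbabilityTheory Finset
open scoped ENNReal

/-- extension by zero -/
def ext (F : Finset ℕ) (v : F → ℕ) (x : ℕ) : ℕ := if h : x ∈ F then v ⟨x, h⟩ else 0

lemma ext_mem {F : Finset ℕ} (v : F → ℕ) {x : ℕ} (h : x ∈ F) : ext F v x = v ⟨x, h⟩ := by
  unfold ext
  rw [dif_pos h]

theorem indep_bound {Ω : Type*} [MeasurableSpace Ω] {μ : Measure Ω} [IsProbabilityMeasure μ]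
    {ξ : ℕ → Ω → ℕ} (hm : ∀ x, Measurable (ξ x)) (hi : iIndepFun ξ μ) (F I : Finset ℕ)
    (hFI : Disjoint F I) (Q : (ℕ → ℕ) → Prop) (G : (ℕ → ℕ) → ℕ → Set ℕ)
    (hQ : ∀ v v' : ℕ → ℕ, (∀ x ∈ F, v x = v' x) → Q v → Q v')
    (hG : ∀ v v' : ℕ → ℕ, (∀ x ∈ F, v x = v' x) → ∀ x ∈ I, G v x = G v' x)
    (p : ℝ≥0∞) (hp : ∀ v, Q v → ∀ x ∈ I, μ {ω | ξ x ω ∉ G v x} ≤ p) :
    μ {ω | Q (fun x => ξ x ω) ∧ ∀ x ∈ I, ξ x ω ∉ G (fun y => ξ y ω) x} ≤ p ^ I.card := by
  classical
  let A : (F → ℕ) → Set Ω := fun v => {ω | ∀ x : F, ξ x ω = v x}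
  let B : (F → ℕ) → Set Ω := fun v =>
    {ω | ω ∈ A v ∧ Q (ext F v) ∧ ∀ x ∈ I, ξ x ω ∉ G (ext F v) x}
  have hsub : {ω | Q (fun x => ξ x ω) ∧ ∀ x ∈ I, ξ x ω ∉ G (fun y => ξ y ω) x} ⊆ ⋃ v, B v := by
    rintro ω ⟨h1, h2⟩
    rw [Set.mem_iUnion]
    have e : ∀ x ∈ F, ξ x ω = ext F (fun x : F => ξ x ω) x := fun x hx => by rw [ext_mem _ hx]
    refine ⟨fun x => ξ x ω, fun x => rfl, hQ _ _ e h1, fun x hx => ?_⟩
    rw [← hG _ _ e x hx]
    exact h2 x hx
  have hAmeas : ∀ v, MeasurableSet (A v) := by
    intro v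
    have : A v = ⋂ x : F, ξ x ⁻¹' {v x} := by
      ext ω
      simp [A]
    rw [this]
    exact MeasurableSet.iInter fun x => hm x (MeasurableSet.of_discrete)
  have hAdisj : Pairwise (Function.onFun Disjoint A) := by
    intro v v' hvv
    refine Set.disjoint_left.2 fun ω h1 h2 => hvv ?_
    funext x
    rw [← h1 x, ← h2 x]
  have hB : ∀ v, μ (B v) ≤ μ (A v) * p ^ I.card := by
    intro v
    by_cases hQv : Q (ext F v)
    · let S : ℕ → Set ℕ := fun x => if x ∈ F then {ext F v x} else (G (ext F v) x)ᶜ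
      have e1 : B v = ⋂ x ∈ F ∪ I, ξ x ⁻¹' S x := by
        ext ω
        simp only [Set.mem_iInter, B, Set.mem_ofPred_eq, A]
        constructor
        · rintro ⟨h1, -, h3⟩ x hx
          by_cases hxF : x ∈ F
          · simp only [S, if_pos hxF, Set.mem_preimage, Set.mem_singleton_iff]
            rw [ext_mem _ hxF]
            exact h1 ⟨x, hxF⟩
          · simp only [S, if_neg hxF, Set.mem_preimage, Set.mem_compl_iff]
            exact h3 x ((mem_union.1 hx).resolve_left hxF)
        · intro h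
          refine ⟨fun x => ?_, hQv, fun x hx => ?_⟩
          · have := h x (mem_union_left _ x.2)
            simp only [S, if_pos x.2, Set.mem_preimage, Set.mem_singleton_iff] at this
            rw [this, ext_mem _ x.2]
          · have hxF : x ∉ F := fun h' => (Finset.disjoint_left.1 hFI) h' hx
            have := h x (mem_union_right _ hx)
            simpa only [S, if_neg hxF, Set.mem_preimage, Set.mem_compl_iff] using this
      have e2 : A v = ⋂ x ∈ F, ξ x ⁻¹' S x := by
        ext ω
        simp only [Set.mem_iInter, Set.mem_ofPred_eq, A]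
        constructor
        · intro h1 x hxF
          simp only [S, if_pos hxF, Set.mem_preimage, Set.mem_singleton_iff]
          rw [ext_mem _ hxF]
          exact h1 ⟨x, hxF⟩
        · intro h x
          have := h x x.2
          simp only [S, if_pos x.2, Set.mem_preimage, Set.mem_singleton_iff] at this
          rw [this, ext_mem _ x.2]
      have h1 := hi.measure_inter_preimage_eq_mul (S := F ∪ I) (sets := S)
        (fun x _ => MeasurableSet.of_discrete)
      have h2 := hi.measure_inter_preimage_eq_mul (S := F) (sets := S)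
        (fun x _ => MeasurableSet.of_discrete)
      rw [e1, e2, h1, h2, prod_union hFI]
      gcongr
      calc ∏ x ∈ I, μ (ξ x ⁻¹' S x) ≤ ∏ x ∈ I, p := by
            apply Finset.prod_le_prod' 
            intro x hx
            have hxF : x ∉ F := fun h' => (Finset.disjoint_left.1 hFI) h' hx
            have h3 := hp _ hQv x hx
            have h4 : ξ x ⁻¹' S x = {ω | ξ x ω ∉ G (ext F v) x} := by
              ext ω
              simp only [S, if_neg hxF, Set.mem_preimage, Set.mem_compl_iff, Set.mem_ofPred_eq]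
            rw [h4]
            exact h3
        _ = p ^ I.card := by rw [prod_const]
    · have : B v = ∅ := by
        ext ω
        simp [B, hQv]
      rw [this, measure_empty]
      exact zero_le
  calc μ _ ≤ μ (⋃ v, B v) := measure_mono hsub
    _ ≤ ∑' v, μ (B v) := measure_iUnion_le _
    _ ≤ ∑' v, μ (A v) * p ^ I.card := ENNReal.tsum_le_tsum hB
    _ = (∑' v, μ (A v)) * p ^ I.card := ENNReal.tsum_mul_right
    _ ≤ 1 * p ^ I.card := by
        gcongr
        rw [← measure_iUnion hAdisj hAmeas]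
        exact prob_le_one
    _ = p ^ I.card := one_mul _

end Pool.Agent.Helper65.WP
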