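import Mathlib

set_option autoImplicit false

/-! Numbers and asymptotic inequalities. -/

namespace Pool.Agent.Helper65.WP

open Finset Filter Topology

lemma exp_num : Real.exp (-(9 / 5)) < 17 / 100 := by
  have h1 : (1 : ℝ) + 9 / 10 + (9 / 10) ^ 2 / 2 + (9 / 10) ^ 3 / 6 ≤ Real.exp (9 / 10) := by
    have := Real.sum_le_exp_of_nonneg (x := 9 / 10) (by norm_num) 4
    simp only [Finset.sum_range_succ, Finset.sum_range_zero, Nat.factorial] at this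
    norm_num at this ⊢
    linarith
  have h2 : Real.exp (9 / 5) = Real.exp (9 / 10) * Real.exp (9 / 10) := by
    rw [← Real.exp_add]; norm_num
  have h3 : (100 / 17 : ℝ) < Real.exp (9 / 5) := by
    rw [h2]
    have h4 : (1 : ℝ) + 9 / 10 + (9 / 10) ^ 2 / 2 + (9 / 10) ^ 3 / 6 > 0 := by norm_num
    calc (100 / 17 : ℝ) < (1 + 9 / 10 + (9 / 10) ^ 2 / 2 + (9 / 10) ^ 3 / 6) *
          (1 + 9 / 10 + (9 / 10) ^ 2 / 2 + (9 / 10) ^ 3 / 6) := by norm_num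
      _ ≤ _ := mul_le_mul h1 h1 h4.le (Real.exp_pos _).le
  rw [Real.exp_neg]
  calc (Real.exp (9 / 5))⁻¹ < (100 / 17 : ℝ)⁻¹ := inv_strictAnti₀ (by norm_num) h3
    _ = 17 / 100 := by norm_num

lemma kappa {k : ℕ} (hk : 2 ≤ k) :
    (k : ℝ) * (1 - 1 / (k : ℝ)) ^ (2 * k - k / 5) < 17 * k / 100 := by
  have hk0 : (0 : ℝ) < k := by positivity
  have hk1 : (1 : ℝ) ≤ k := by exact_mod_cast (by omega : 1 ≤ k)
  have h1 : (1 - 1 / (k : ℝ)) ^ (2 * k - k / 5) ≤ Real.exp (-(9 / 5)) := by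
    calc (1 - 1 / (k : ℝ)) ^ (2 * k - k / 5) ≤ (Real.exp (-(1 / (k : ℝ)))) ^ (2 * k - k / 5) := by
          apply pow_le_pow_left₀
          · have : 1 / (k : ℝ) ≤ 1 := by rw [div_le_one hk0]; exact hk1
            linarith
          · exact Real.one_sub_le_exp_neg _
      _ = Real.exp (((2 * k - k / 5 : ℕ) : ℝ) * (-(1 / (k : ℝ)))) := by rw [← Real.exp_nat_mul]
      _ ≤ Real.exp (-(9 / 5)) := by
          apply Real.exp_le_exp.2
          have h2 : (9 / 5 : ℝ) * k ≤ ((2 * k - k / 5 : ℕ) : ℝ) := by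
            have h3 : k / 5 ≤ 2 * k := by omega
            rw [Nat.cast_sub h3]
            have h4 : ((k / 5 : ℕ) : ℝ) ≤ k / 5 := by exact_mod_cast Nat.cast_div_le (m := k) (n := 5)
            push_cast
            linarith
          have h3 : (9 / 5 : ℝ) ≤ ((2 * k - k / 5 : ℕ) : ℝ) * (1 / (k : ℝ)) := by
            rw [mul_one_div, le_div_iff₀ hk0]
            exact h2
          linarith
  have h2 := exp_num
  calc (k : ℝ) * (1 - 1 / (k : ℝ)) ^ (2 * k - k / 5) ≤ k * Real.exp (-(9 / 5)) :=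
        mul_le_mul_of_nonneg_left h1 hk0.le
    _ < k * (17 / 100) := mul_lt_mul_of_pos_left h2 hk0
    _ = _ := by ring

lemma ratio {k : ℕ} (hk : 2 ≤ k) :
    17 * (k : ℝ) / 100 / ((k / 5 + 1 : ℕ) : ℝ) ≤ 17 / 20 := by
  have hk0 : (0 : ℝ) < k := by positivity
  have h1 : (k : ℝ) / 5 ≤ ((k / 5 + 1 : ℕ) : ℝ) := by
    have : k < 5 * (k / 5 + 1) := Nat.lt_mul_div_succ k (by norm_num)
    have h2 : (k : ℝ) < 5 * ((k / 5 + 1 : ℕ) : ℝ) := by exact_mod_cast this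
    linarith
  rw [div_le_iff₀ (by positivity)]
  linarith

/-- `N ^ c → ∞` along the natural numbers -/
lemma nat_rpow {c : ℝ} (hc : 0 < c) (B : ℝ) : ∀ᶠ N : ℕ in atTop, B ≤ (N : ℝ) ^ c :=
  ((tendsto_rpow_atTop hc).comp tendsto_natCast_atTop_atTop).eventually_ge_atTop B

lemma asy1 {κ θ A : ℝ} (hA : 0 < A) (h : κ < θ) :
    ∀ᶠ N : ℕ in atTop, 4 * (N : ℝ) ^ κ ≤ ((N : ℝ) / A) ^ θ := by
  filter_upwards [nat_rpow (sub_pos.2 h) (4 * A ^ θ), eventually_ge_atTop 1] with N h1 h2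
  have hN : (0 : ℝ) < N := by exact_mod_cast h2
  rw [Real.div_rpow hN.le hA.le, le_div_iff₀ (by positivity)]
  calc 4 * (N : ℝ) ^ κ * A ^ θ = (4 * A ^ θ) * (N : ℝ) ^ κ := by ring
    _ ≤ (N : ℝ) ^ (θ - κ) * (N : ℝ) ^ κ := mul_le_mul_of_nonneg_right h1 (by positivity)
    _ = (N : ℝ) ^ θ := by rw [← Real.rpow_add hN]; congr 1; ring

lemma asy2 {θ A : ℝ} {k : ℕ} (hθ : 0 ≤ θ) (h : θ < k) (hA : 0 ≤ A) :
    ∀ᶠ N : ℕ in atTop, A * ((N : ℝ) ^ θ + 1) ≤ (N : ℝ) ^ k := by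
  filter_upwards [nat_rpow (sub_pos.2 h) (2 * A), eventually_ge_atTop 1] with N h1 h2
  have hN : (0 : ℝ) < N := by exact_mod_cast h2
  have hN1 : (1 : ℝ) ≤ N := by exact_mod_cast h2
  have h3 : 1 ≤ (N : ℝ) ^ θ := Real.one_le_rpow hN1 hθ
  calc A * ((N : ℝ) ^ θ + 1) ≤ A * (2 * (N : ℝ) ^ θ) := by
        apply mul_le_mul_of_nonneg_left _ hA
        linarith
    _ = (2 * A) * (N : ℝ) ^ θ := by ring
    _ ≤ (N : ℝ) ^ ((k : ℝ) - θ) * (N : ℝ) ^ θ := mul_le_mul_of_nonneg_right h1 (by positivity)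
    _ = (N : ℝ) ^ k := by rw [← Real.rpow_add hN, ← Real.rpow_natCast]; congr 1; ring

lemma asy3 {c : ℝ} (hc : 0 < c) (A : ℝ) (k : ℕ) :
    ∀ᶠ N : ℕ in atTop, A * (2 * (N : ℝ)) ^ k * Real.exp (-c * (N : ℝ) ^ (1 / 20 : ℝ)) ≤
      1 / (N : ℝ) ^ 2 := by
  have h1 := tendsto_rpow_mul_exp_neg_mul_atTop_nhds_zero (20 * ((k : ℝ) + 2)) c hc
  have h2 : Tendsto (fun N : ℕ => (N : ℝ) ^ (1 / 20 : ℝ)) atTop atTop :=
    (tendsto_rpow_atTop (by norm_num)).comp tendsto_natCast_atTop_atTop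
  have h3 := (h1.comp h2).const_mul (|A| * 2 ^ k)
  rw [mul_zero] at h3
  filter_upwards [h3.eventually (gt_mem_nhds one_pos), eventually_ge_atTop 1] with N h4 h5
  have hN : (0 : ℝ) < N := by exact_mod_cast h5
  simp only [Function.comp] at h4
  rw [← Real.rpow_mul hN.le] at h4
  have e : (1 / 20 : ℝ) * (20 * ((k : ℝ) + 2)) = ((k + 2 : ℕ) : ℝ) := by push_cast; ring
  rw [e, Real.rpow_natCast] at h4
  rw [le_div_iff₀ (by positivity)]
  calc A * (2 * (N : ℝ)) ^ k * Real.exp (-c * (N : ℝ) ^ (1 / 20 : ℝ)) * (N : ℝ) ^ 2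
      ≤ |A| * (2 * (N : ℝ)) ^ k * Real.exp (-c * (N : ℝ) ^ (1 / 20 : ℝ)) * (N : ℝ) ^ 2 := by
        gcongr
        exact le_abs_self A
    _ = |A| * 2 ^ k * ((N : ℝ) ^ (k + 2) * Real.exp (-c * (N : ℝ) ^ (1 / 20 : ℝ))) := by
        rw [mul_pow, pow_add]; ring
    _ ≤ 1 := h4.le

end Pool.Agent.Helper65.WP
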