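import Pool.Agent.Helper65.WP.Zero
import Pool.Agent.Helper65.WP.Num

set_option autoImplicit false

/-! Almost surely every large number of the right class is a sum of `2 k + 1` perturbed powers. -/

namespace Pool.Agent.Helper65.WP

open MeasureTheory ProbabilityTheory Finset Filter Topology
open scoped ENNReal

/-- the lengths `⌈N ^ (e (t - j))⌉` -/
noncomputable def len (e : ℝ) (t N j : ℕ) : ℕ := ⌈(N : ℝ) ^ (e * ((t : ℝ) - j))⌉₊

lemma len_le {e : ℝ} {t N j : ℕ} (he : 0 ≤ e) (hN : 1 ≤ N) (hj : j ≤ t) :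
    (N : ℝ) ^ (e * ((t : ℝ) - j)) ≤ len e t N j ∧
      (len e t N j : ℝ) ≤ 2 * (N : ℝ) ^ (e * ((t : ℝ) - j)) := by
  have hN1 : (1 : ℝ) ≤ N := by exact_mod_cast hN
  have hj' : (j : ℝ) ≤ t := by exact_mod_cast hj
  have h1 : 1 ≤ (N : ℝ) ^ (e * ((t : ℝ) - j)) :=
    Real.one_le_rpow hN1 (mul_nonneg he (by linarith))
  refine ⟨Nat.le_ceil _, ?_⟩
  have := (Nat.ceil_lt_add_one (a := (N : ℝ) ^ (e * ((t : ℝ) - j))) (by positivity)).le
  unfold len
  linarith

lemma len_top {e : ℝ} {t N : ℕ} : len e t N t = 1 := by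
  unfold len
  simp

lemma len_anti {e : ℝ} {t N j : ℕ} (he : 0 ≤ e) (hN : 1 ≤ N) : len e t N (j + 1) ≤ len e t N j := by
  unfold len
  apply Nat.ceil_mono
  apply Real.rpow_le_rpow_of_exponent_le (by exact_mod_cast hN)
  apply mul_le_mul_of_nonneg_left _ he
  push_cast
  linarith

open Classical in
theorem prob_bad {k M : ℕ} (hk : 2 ≤ k) (hM : 0 < M) {X : Set ℕ}
    (hX : ∀ r : ℕ, ∀ᶠ N : ℕ in atTop, (N : ℝ) ^ (9 / 10 : ℝ) ≤
      (((Ioc N (2 * N)).filter fun x => x ∈ X ∧ x ≡ r [MOD M]).card : ℝ))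
    {Ω : Type*} [MeasurableSpace Ω] {μ : Measure Ω} [IsProbabilityMeasure μ]
    {ξ : ℕ → Ω → ℕ} (hm : ∀ x, Measurable (ξ x)) (hi : iIndepFun ξ μ)
    (hle : ∀ x ω, ξ x ω ≤ ⌊(x : ℝ) ^ ((k : ℝ) / 5)⌋₊)
    (hu : ∀ x ∈ X, ∀ v ≤ ⌊(x : ℝ) ^ ((k : ℝ) / 5)⌋₊,
      μ {ω | ξ x ω = v} = ((⌊(x : ℝ) ^ ((k : ℝ) / 5)⌋₊ + 1 : ℕ) : ℝ≥0∞)⁻¹) (r : ℕ → ℕ) :
    ∀ᶠ N : ℕ in atTop, μ {ω | ¬ Good k M (2 * k - k / 5) (k / 5 + 1) N X r
      (len (17 * (k : ℝ) / 100 / ((k / 5 + 1 : ℕ) : ℝ)) (k / 5 + 1) N) (fun x => ξ x ω)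
        (k / 5 + 1)} ≤ ENNReal.ofReal (1 / (N : ℝ) ^ 2) := by
  obtain ⟨g, hg⟩ : ∃ g, 2 * k - k / 5 = g + 1 := ⟨2 * k - k / 5 - 1, by omega⟩
  obtain ⟨t, ht⟩ : ∃ t, t = k / 5 + 1 := ⟨_, rfl⟩
  obtain ⟨e, he⟩ : ∃ e : ℝ, e = 17 * (k : ℝ) / 100 / ((k / 5 + 1 : ℕ) : ℝ) := ⟨_, rfl⟩
  have hκ := kappa hk
  have he1 : e ≤ 17 / 20 := by rw [he]; exact ratio hk
  rw [← he, ← ht, hg]
  rw [hg] at hκ
  have hk0 : (0 : ℝ) < k := by positivity
  have hk2 : (2 : ℝ) ≤ k := by exact_mod_cast hk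
  have ht0 : (0 : ℝ) < t := by rw [ht]; positivity
  have het : e * t = 17 * k / 100 := by
    rw [he, ht]
    exact div_mul_cancel₀ _ (by positivity)
  have he0 : 0 < e := by
    rw [he]; positivity
  have e0 : ∀ N : ℕ, (N : ℝ) ^ (17 * (k : ℝ) / 100) ≤ len e t N 0 := by
    intro N
    unfold len
    have : e * ((t : ℝ) - ((0 : ℕ) : ℝ)) = 17 * k / 100 := by push_cast; rw [sub_zero, het]
    rw [this]
    exact Nat.le_ceil _
  have A0 := good_zero (t := t) hk hM hκ e0 X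
  have A1 := asy1 (κ := 17 * (k : ℝ) / 100) (θ := (k : ℝ) / 5) (A := 4 ^ (t + 1)) (by positivity)
    (by linarith)
  have A2 := asy2 (θ := (k : ℝ) / 5) (A := M * 2 ^ (t + 2)) (k := k) (by positivity)
    (by linarith) (by positivity)
  obtain ⟨c, hc⟩ : ∃ c : ℝ, c = 1 / 8 * ((1 : ℝ) / (2 * 4 ^ (t + 1))) ^ (9 / 10 : ℝ) := ⟨_, rfl⟩
  have hc0 : 0 < c := by rw [hc]; positivity
  have A3 := asy3 hc0 (t : ℝ) k
  have A4 : ∀ᶠ N : ℕ in atTop, ∀ j < t, ((N / 4 ^ (j + 2) : ℕ) : ℝ) ^ (9 / 10 : ℝ) ≤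
      (((blk N j).filter fun x => x ∈ X ∧ x ≡ r (g + 1 + j) [MOD M]).card : ℝ) := by
    have : ∀ j ∈ Finset.range t, ∀ᶠ N : ℕ in atTop, ((N / 4 ^ (j + 2) : ℕ) : ℝ) ^ (9 / 10 : ℝ) ≤
      (((blk N j).filter fun x => x ∈ X ∧ x ≡ r (g + 1 + j) [MOD M]).card : ℝ) := by
      intro j _
      have h1 : Tendsto (fun N : ℕ => N / 4 ^ (j + 2)) atTop atTop :=
        Nat.tendsto_div_const_atTop (by positivity)
      exact h1.eventually (hX (r (g + 1 + j)))
    have h2 := (Filter.eventually_all_finset (Finset.range t)).2 this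
    filter_upwards [h2] with N hN j hj
    exact hN j (Finset.mem_range.2 hj)
  filter_upwards [A0, A1, A2, A3, A4, eventually_ge_atTop (2 * 4 ^ (t + 1)), eventually_ge_atTop 1]
    with N B0 B1 B2 B3 B4 B5 B6
  have hN : (0 : ℝ) < N := by exact_mod_cast B6
  have hN1 : (1 : ℝ) ≤ N := by exact_mod_cast B6
  -- the perturbation is admissible
  have hpert : ∀ ω, Pert k M (av k M (fun x => ξ x ω)) := by
    intro ω x hx
    have hx1 : (1 : ℝ) ≤ x := by exact_mod_cast hx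
    refine ⟨Nat.le_add_right _ _, Nat.add_le_add_left (Nat.mul_le_mul_left _ ?_) _⟩
    have h1 : ((ξ x ω : ℕ) : ℝ) ≤ ((x ^ (k - 1) : ℕ) : ℝ) := by
      calc ((ξ x ω : ℕ) : ℝ) ≤ (⌊(x : ℝ) ^ ((k : ℝ) / 5)⌋₊ : ℝ) := by exact_mod_cast hle x ω
        _ ≤ (x : ℝ) ^ ((k : ℝ) / 5) := Nat.floor_le (by positivity)
        _ ≤ (x : ℝ) ^ (((k - 1 : ℕ) : ℝ)) := by
            apply Real.rpow_le_rpow_of_exponent_le hx1
            rw [Nat.cast_sub (by omega)]
            push_cast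
            linarith
        _ = ((x ^ (k - 1) : ℕ) : ℝ) := by rw [Real.rpow_natCast]; push_cast; rfl
    exact_mod_cast h1
  set q : ℝ := (N : ℝ) ^ (-e) / 8 with hq
  have hq0 : 0 ≤ q := by positivity
  have hqle : q ≤ 1 := by
    have : (N : ℝ) ^ (-e) ≤ 1 := Real.rpow_le_one_of_one_le_of_nonpos hN1 (by linarith)
    rw [hq]; linarith
  -- one step
  have hstep : ∀ j < t, μ {ω | Good k M (g + 1) t N X r (len e t N) (fun x => ξ x ω) j ∧
      ¬ Good k M (g + 1) t N X r (len e t N) (fun x => ξ x ω) (j + 1)} ≤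
      ENNReal.ofReal ((2 * (N : ℝ)) ^ k * Real.exp (-c * (N : ℝ) ^ (1 / 20 : ℝ))) := by
    intro j hj
    have hNj : (N : ℝ) / (2 * 4 ^ (t + 1)) ≤ ((N / 4 ^ (j + 2) : ℕ) : ℝ) := by
      have h1 : N / 4 ^ (t + 1) ≤ N / 4 ^ (j + 2) :=
        Nat.div_le_div_left (Nat.pow_le_pow_right (by norm_num) (by omega)) (by positivity)
      have h2 : 2 ≤ N / 4 ^ (t + 1) := (Nat.le_div_iff_mul_le (by positivity)).2 (by linarith)
      have h3 : N < 4 ^ (t + 1) * (N / 4 ^ (t + 1) + 1) := Nat.lt_mul_div_succ N (by positivity)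
      have h4 : N ≤ 2 * 4 ^ (t + 1) * (N / 4 ^ (t + 1)) := by
        have : N / 4 ^ (t + 1) + 1 ≤ 2 * (N / 4 ^ (t + 1)) := by omega
        calc N ≤ 4 ^ (t + 1) * (N / 4 ^ (t + 1) + 1) := h3.le
          _ ≤ 4 ^ (t + 1) * (2 * (N / 4 ^ (t + 1))) := Nat.mul_le_mul_left _ this
          _ = _ := by ring
      have h5 : (N : ℝ) ≤ 2 * 4 ^ (t + 1) * ((N / 4 ^ (t + 1) : ℕ) : ℝ) := by exact_mod_cast h4
      rw [div_le_iff₀ (by positivity)]
      have h6 : ((N / 4 ^ (t + 1) : ℕ) : ℝ) ≤ ((N / 4 ^ (j + 2) : ℕ) : ℝ) := by exact_mod_cast h1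
      have h7 : (0 : ℝ) < 2 * 4 ^ (t + 1) := by positivity
      nlinarith
    have hxblk : ∀ x ∈ blk N j, (N : ℝ) / 4 ^ (t + 1) ≤ x ∧ (x : ℝ) ≤ N / (8 * 4 ^ j) := by
      intro x hx
      rw [blk, mem_Ioc] at hx
      constructor
      · have h1 : N / 4 ^ (t + 1) ≤ N / 4 ^ (j + 2) :=
          Nat.div_le_div_left (Nat.pow_le_pow_right (by norm_num) (by omega)) (by positivity)
        have h3 : N < 4 ^ (t + 1) * (N / 4 ^ (t + 1) + 1) := Nat.lt_mul_div_succ N (by positivity)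
        have h4 : N ≤ 4 ^ (t + 1) * x := h3.le.trans (Nat.mul_le_mul_left _ (by omega))
        rw [div_le_iff₀ (by positivity)]
        have : (N : ℝ) ≤ 4 ^ (t + 1) * x := by exact_mod_cast h4
        linarith
      · have h1 : ((N / 4 ^ (j + 2) : ℕ) : ℝ) ≤ N / 4 ^ (j + 2) := by
          have := Nat.cast_div_le (α := ℝ) (m := N) (n := 4 ^ (j + 2))
          push_cast at this
          exact this
        have h2 : (x : ℝ) ≤ 2 * ((N / 4 ^ (j + 2) : ℕ) : ℝ) := by exact_mod_cast hx.2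
        have h3 : (N : ℝ) / (8 * 4 ^ j) = 2 * (N / 4 ^ (j + 2)) := by
          rw [pow_add]; field_simp; norm_num
        rw [h3]; linarith
    have hxN : ∀ x ∈ blk N j, (x : ℝ) ≤ N := fun x hx => (hxblk x hx).2.trans (by
      apply div_le_self hN.le
      have : (1 : ℝ) ≤ 4 ^ j := one_le_pow₀ (by norm_num)
      linarith)
    have hlen0 : (len e t N j : ℝ) ≤ 2 * (N : ℝ) ^ (17 * (k : ℝ) / 100) := by
      refine (len_le he0.le B6 hj.le).2.trans ?_
      apply mul_le_mul_of_nonneg_left _ (by norm_num)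
      apply Real.rpow_le_rpow_of_exponent_le hN1
      rw [← het]
      apply mul_le_mul_of_nonneg_left _ he0.le
      have : (0 : ℝ) ≤ j := by positivity
      linarith
    have h1 := cover_step (k := k) (M := M) (g := g + 1) (t := t) (N := N) (X := X) (r := r)
      (l := len e t N) (R := fun x => ⌊(x : ℝ) ^ ((k : ℝ) / 5)⌋₊ + 1) (j := j) hM hj
      (by
        intro x hx
        have h1 : (2 * (len e t N j : ℝ)) ≤ ((⌊(x : ℝ) ^ ((k : ℝ) / 5)⌋₊ + 1 : ℕ) : ℝ) := by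
          push_cast
          calc (2 * (len e t N j : ℝ)) ≤ 4 * (N : ℝ) ^ (17 * (k : ℝ) / 100) := by linarith
            _ ≤ ((N : ℝ) / 4 ^ (t + 1)) ^ ((k : ℝ) / 5) := B1
            _ ≤ (x : ℝ) ^ ((k : ℝ) / 5) :=
                Real.rpow_le_rpow (by positivity) (hxblk x hx).1 (by positivity)
            _ ≤ _ := (Nat.lt_floor_add_one _).le
        exact_mod_cast h1)
      (by
        intro x hx
        have h2 : (x : ℝ) ^ k ≤ (N : ℝ) ^ k / 2 ^ (j + 3) := by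
          calc (x : ℝ) ^ k ≤ ((N : ℝ) / (8 * 4 ^ j)) ^ k :=
                pow_le_pow_left₀ (by positivity) (hxblk x hx).2 _
            _ = (N : ℝ) ^ k / (8 * 4 ^ j) ^ k := by rw [div_pow]
            _ ≤ (N : ℝ) ^ k / 2 ^ (j + 3) := by
                apply div_le_div_of_nonneg_left (by positivity) (by positivity)
                calc (2 : ℝ) ^ (j + 3) = 8 * 2 ^ j := by ring
                  _ ≤ 8 * 4 ^ j := by
                      apply mul_le_mul_of_nonneg_left _ (by norm_num)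
                      exact pow_le_pow_left₀ (by norm_num) (by norm_num) _
                  _ ≤ (8 * 4 ^ j) ^ k := by
                      apply le_self_pow₀ _ (by omega)
                      have : (1 : ℝ) ≤ 4 ^ j := one_le_pow₀ (by norm_num)
                      linarith
        have h3 : (M : ℝ) * ((⌊(x : ℝ) ^ ((k : ℝ) / 5)⌋₊ + 1 : ℕ) : ℝ) ≤
            (N : ℝ) ^ k / 2 ^ (j + 3) := by
          have h4 : ((⌊(x : ℝ) ^ ((k : ℝ) / 5)⌋₊ + 1 : ℕ) : ℝ) ≤ (N : ℝ) ^ ((k : ℝ) / 5) + 1 := by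
            push_cast
            have h5 : (⌊(x : ℝ) ^ ((k : ℝ) / 5)⌋₊ : ℝ) ≤ (x : ℝ) ^ ((k : ℝ) / 5) :=
              Nat.floor_le (by positivity)
            have h6 : (x : ℝ) ^ ((k : ℝ) / 5) ≤ (N : ℝ) ^ ((k : ℝ) / 5) :=
              Real.rpow_le_rpow (by positivity) (hxN x hx) (by positivity)
            linarith
          rw [le_div_iff₀ (by positivity)]
          have h7 : (2 : ℝ) ^ (j + 3) ≤ 2 ^ (t + 2) :=
            pow_le_pow_right₀ (by norm_num) (by omega)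
          calc (M : ℝ) * ((⌊(x : ℝ) ^ ((k : ℝ) / 5)⌋₊ + 1 : ℕ) : ℝ) * 2 ^ (j + 3)
              ≤ (M : ℝ) * ((N : ℝ) ^ ((k : ℝ) / 5) + 1) * 2 ^ (t + 2) := by gcongr
            _ = (M : ℝ) * 2 ^ (t + 2) * ((N : ℝ) ^ ((k : ℝ) / 5) + 1) := by ring
            _ ≤ (N : ℝ) ^ k := B2
        have h8 : (N : ℝ) ^ k / 2 ^ (j + 2) = (N : ℝ) ^ k / 2 ^ (j + 3) + (N : ℝ) ^ k / 2 ^ (j + 3) := by
          rw [pow_succ (2 : ℝ) (j + 2)]; field_simp; norm_num
        rw [h8]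
        exact add_le_add h2 h3)
      (by
        have h2 : (0 : ℝ) < len e t N (j + 1) := lt_of_lt_of_le (by positivity)
          (len_le he0.le B6 (by omega : j + 1 ≤ t)).1
        exact_mod_cast h2)
      (len_anti he0.le B6) (q := q)
      (by
        have h2 := (len_le he0.le B6 hj.le).2
        have h3 := (len_le he0.le B6 (by omega : j + 1 ≤ t)).1
        calc q * (4 * (len e t N j : ℝ)) ≤ q * (4 * (2 * (N : ℝ) ^ (e * ((t : ℝ) - j)))) := by
              gcongr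
          _ = (N : ℝ) ^ (-e) * (N : ℝ) ^ (e * ((t : ℝ) - j)) := by rw [hq]; ring
          _ = (N : ℝ) ^ (e * ((t : ℝ) - (j + 1 : ℕ))) := by
              rw [← Real.rpow_add hN]; congr 1; push_cast; ring
          _ ≤ _ := h3)
      hm hi (fun x => Nat.succ_pos _) (fun x hx v hv => hu x hx v (Nat.lt_succ_iff.1 hv))
    refine h1.trans ?_
    rw [← ENNReal.ofReal_pow (by linarith), ← ENNReal.ofReal_natCast, ← ENNReal.ofReal_mul (by positivity)]
    apply ENNReal.ofReal_le_ofReal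
    push_cast
    apply mul_le_mul_of_nonneg_left _ (by positivity)
    set n := ((blk N j).filter fun x => x ∈ X ∧ x ≡ r (g + 1 + j) [MOD M]).card with hn
    calc (1 - q) ^ n ≤ (Real.exp (-q)) ^ n :=
          pow_le_pow_left₀ (by linarith) (Real.one_sub_le_exp_neg _) _
      _ = Real.exp (n * (-q)) := by rw [← Real.exp_nat_mul]
      _ ≤ Real.exp (-c * (N : ℝ) ^ (1 / 20 : ℝ)) := by
          apply Real.exp_le_exp.2
          have h2 := B4 j hj
          rw [← hn] at h2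
          have h3 : ((N : ℝ) / (2 * 4 ^ (t + 1))) ^ (9 / 10 : ℝ) ≤ n :=
            (Real.rpow_le_rpow (by positivity) hNj (by norm_num)).trans h2
          have h4 : (N : ℝ) ^ (-(17 / 20) : ℝ) ≤ (N : ℝ) ^ (-e) :=
            Real.rpow_le_rpow_of_exponent_le hN1 (by linarith)
          have h5 : c * (N : ℝ) ^ (1 / 20 : ℝ) ≤ n * q := by
            have e3 : (N : ℝ) ^ (1 / 20 : ℝ) = (N : ℝ) ^ (9 / 10 : ℝ) * (N : ℝ) ^ (-(17 / 20) : ℝ) := by
              rw [← Real.rpow_add hN]; congr 1; norm_num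
            have e4 : ((N : ℝ) / (2 * 4 ^ (t + 1))) ^ (9 / 10 : ℝ) =
                (N : ℝ) ^ (9 / 10 : ℝ) * ((1 : ℝ) / (2 * 4 ^ (t + 1))) ^ (9 / 10 : ℝ) := by
              rw [← Real.mul_rpow hN.le (by positivity)]
              congr 1; ring
            calc c * (N : ℝ) ^ (1 / 20 : ℝ) =
                  ((N : ℝ) / (2 * 4 ^ (t + 1))) ^ (9 / 10 : ℝ) * ((N : ℝ) ^ (-(17 / 20) : ℝ) / 8) := by
                  rw [hc, e3, e4]; ring
              _ ≤ n * q := by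
                  rw [hq]
                  gcongr
          linarith
  -- the union over the steps
  have hsub : {ω | ¬ Good k M (g + 1) t N X r (len e t N) (fun x => ξ x ω) t} ⊆
      ⋃ j ∈ Finset.range t, {ω | Good k M (g + 1) t N X r (len e t N) (fun x => ξ x ω) j ∧
        ¬ Good k M (g + 1) t N X r (len e t N) (fun x => ξ x ω) (j + 1)} := by
    intro ω hω
    by_contra hcon
    simp only [Set.mem_iUnion, not_exists, mem_range, Set.mem_ofPred_eq, not_and, not_not] at hcon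
    apply hω
    have : ∀ j ≤ t, Good k M (g + 1) t N X r (len e t N) (fun x => ξ x ω) j := by
      intro j
      induction j with
      | zero => exact fun _ => B0 _ (hpert ω) r
      | succ j ih => exact fun hj => hcon j (by omega) (ih (by omega))
    exact this t le_rfl
  calc μ _ ≤ μ (⋃ j ∈ Finset.range t, {ω | Good k M (g + 1) t N X r (len e t N) (fun x => ξ x ω) j ∧
        ¬ Good k M (g + 1) t N X r (len e t N) (fun x => ξ x ω) (j + 1)}) := measure_mono hsub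
    _ ≤ ∑ j ∈ Finset.range t, μ {ω | Good k M (g + 1) t N X r (len e t N) (fun x => ξ x ω) j ∧
        ¬ Good k M (g + 1) t N X r (len e t N) (fun x => ξ x ω) (j + 1)} :=
        measure_biUnion_finset_le _ _
    _ ≤ ∑ _j ∈ Finset.range t,
        ENNReal.ofReal ((2 * (N : ℝ)) ^ k * Real.exp (-c * (N : ℝ) ^ (1 / 20 : ℝ))) :=
        sum_le_sum fun j hj => hstep j (mem_range.1 hj)
    _ = ENNReal.ofReal (t * ((2 * (N : ℝ)) ^ k * Real.exp (-c * (N : ℝ) ^ (1 / 20 : ℝ)))) := by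
        rw [sum_const, card_range, nsmul_eq_mul, ← ENNReal.ofReal_natCast t,
          ← ENNReal.ofReal_mul (by positivity)]
    _ ≤ ENNReal.ofReal (1 / (N : ℝ) ^ 2) := by
        apply ENNReal.ofReal_le_ofReal
        rw [← mul_assoc]
        exact B3

end Pool.Agent.Helper65.WP
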