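import Pool.Agent.Helper65.WP.Cov

set_option autoImplicit false

/-! The start of the induction: the greedy algorithm, outside the blocks. -/

namespace Pool.Agent.Helper65.WP

open Finset Filter Topology

theorem good_zero {k M g t : ℕ} (hk : 2 ≤ k) (hM : 0 < M) {κ : ℝ}
    (hκ : (k : ℝ) * (1 - 1 / (k : ℝ)) ^ (g + 1) < κ) {l : ℕ → ℕ → ℕ}
    (hl : ∀ N : ℕ, (N : ℝ) ^ κ ≤ l N 0) (X : Set ℕ) :
    ∀ᶠ N : ℕ in atTop, ∀ v : ℕ → ℕ, Pert k M (av k M v) → ∀ r : ℕ → ℕ,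
      Good k M (g + 1) t N X r (l N) v 0 := by
  obtain ⟨C, C₁, m₀, hC, hC₁, H⟩ := greedyS hk hM g
  have hk0 : (0 : ℝ) < k := by positivity
  have hk2 : (2 : ℝ) ≤ k := by exact_mod_cast hk
  obtain ⟨ρ, hρ⟩ : ∃ ρ : ℝ, ρ = 1 - 1 / (k : ℝ) := ⟨_, rfl⟩
  rw [← hρ] at H hκ
  have hρ0 : 0 < ρ := by
    have : 1 / (k : ℝ) ≤ 1 / 2 := one_div_le_one_div_of_le (by norm_num) hk2
    rw [hρ]; linarith
  obtain ⟨τ, hτ⟩ : ∃ τ : ℝ, τ = ρ ^ (g + 1) := ⟨_, rfl⟩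
  rw [← hτ] at H hκ
  have hτ0 : 0 < τ := by rw [hτ]; positivity
  -- thresholds
  have f1 : ∀ᶠ N : ℕ in atTop, 2 * m₀ ≤ (N : ℝ) := tendsto_natCast_atTop_atTop.eventually_ge_atTop _
  have f2 : ∀ᶠ N : ℕ in atTop, C₁ * 2 ^ (k - 1) * 4 ^ ((t + 1) * k) < (N : ℝ) :=
    tendsto_natCast_atTop_atTop.eventually_gt_atTop _
  have f3 : ∀ᶠ N : ℕ in atTop, C * (2 : ℝ) ^ ((k : ℝ) * τ) < (N : ℝ) ^ (κ - k * τ) :=
    ((tendsto_rpow_atTop (by linarith)).comp tendsto_natCast_atTop_atTop).eventually_gt_atTop _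
  filter_upwards [f1, f2, f3, eventually_ge_atTop 1] with N g1 g2 g3 g4
  intro v hv r u hu1 hu2 _
  have hN1 : (1 : ℝ) ≤ N := by exact_mod_cast g4
  have hN0 : (0 : ℝ) < N := by linarith
  have hNk : (N : ℝ) ≤ (N : ℝ) ^ k := le_self_pow₀ hN1 (by omega)
  have hu1' : (N : ℝ) ^ k / 2 ≤ u := by
    have : (1 - (1 / 2 : ℝ) ^ (0 + 1)) * (N : ℝ) ^ k = (N : ℝ) ^ k / 2 := by ring
    linarith
  have hu2' : (u : ℝ) < (2 * N) ^ k := by exact_mod_cast hu2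
  have hu0 : (0 : ℝ) < u := by
    have : 0 < (N : ℝ) ^ k := by positivity
    linarith
  obtain ⟨x, h1, h2, h3, h4, h5⟩ := H (av k M v) hv u (by linarith) r
  have hax : ∀ i, av k M v (x i) ≤ u := fun i => le_trans
    (single_le_sum (f := fun i => av k M v (x i)) (fun j _ => Nat.zero_le _) (mem_univ i)) h2
  have hx2N : ∀ i, x i ≤ 2 * N := by
    intro i
    have h6 : (x i) ^ k < (2 * N) ^ k := lt_of_le_of_lt (((hv _ (h1 i).1).1).trans (hax i)) hu2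
    exact (lt_of_pow_lt_pow_left₀ k (Nat.zero_le _) h6).le
  have hblk : ∀ i, ∀ j < t, x i ∉ blk N j := by
    intro i
    refine Fin.cases ?_ (fun i => ?_) i
    · intro j hj hmem
      rw [blk, mem_Ioc] at hmem
      have h6 : (N : ℝ) / 2 ≤ (u : ℝ) ^ (1 / (k : ℝ)) := by
        have h7 : ((N : ℝ) / 2) ^ k ≤ u := by
          calc ((N : ℝ) / 2) ^ k = (N : ℝ) ^ k / 2 ^ k := by rw [div_pow]
            _ ≤ (N : ℝ) ^ k / 2 := by
                apply div_le_div_of_nonneg_left (by positivity) (by norm_num)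
                calc (2 : ℝ) = 2 ^ 1 := by norm_num
                  _ ≤ 2 ^ k := pow_le_pow_right₀ (by norm_num) (by omega)
            _ ≤ u := hu1'
        calc (N : ℝ) / 2 = (((N : ℝ) / 2) ^ k) ^ (1 / (k : ℝ)) := by
              rw [← Real.rpow_natCast, ← Real.rpow_mul (by positivity), mul_one_div_cancel hk0.ne',
                Real.rpow_one]
          _ ≤ (u : ℝ) ^ (1 / (k : ℝ)) := Real.rpow_le_rpow (by positivity) h7 (by positivity)
      have h8 : (N : ℝ) / 4 ≤ x 0 := by linarith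
      have h9 : N / 4 ^ (j + 2) ≤ N / 16 :=
        Nat.div_le_div_left (by
          calc 16 = 4 ^ 2 := by norm_num
            _ ≤ 4 ^ (j + 2) := Nat.pow_le_pow_right (by norm_num) (by omega)) (by norm_num)
      have h10 : N ≤ 4 * x 0 := by
        have : (N : ℝ) ≤ 4 * x 0 := by linarith
        exact_mod_cast this
      omega
    · intro j hj hmem
      rw [blk, mem_Ioc] at hmem
      have h6 : (N : ℝ) ≤ 4 ^ (t + 1) * (x i.succ : ℕ) := by
        have h7 : N < 4 ^ (j + 2) * (x i.succ) := by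
          have := Nat.lt_mul_div_succ N (show 0 < 4 ^ (j + 2) by positivity)
          calc N < 4 ^ (j + 2) * (N / 4 ^ (j + 2) + 1) := this
            _ ≤ _ := Nat.mul_le_mul_left _ hmem.1
        have h8 : 4 ^ (j + 2) ≤ 4 ^ (t + 1) := Nat.pow_le_pow_right (by norm_num) (by omega)
        have h9 : N ≤ 4 ^ (t + 1) * (x i.succ) := h7.le.trans (Nat.mul_le_mul_right _ h8)
        exact_mod_cast h9
      have h7 : (N : ℝ) ^ k ≤ 4 ^ ((t + 1) * k) * ((x i.succ : ℕ) : ℝ) ^ k := by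
        calc (N : ℝ) ^ k ≤ (4 ^ (t + 1) * ((x i.succ : ℕ) : ℝ)) ^ k := pow_le_pow_left₀ hN0.le h6 _
          _ = _ := by rw [mul_pow, ← pow_mul]
      have h8 : (u : ℝ) ^ (1 - 1 / (k : ℝ)) ≤ (2 * (N : ℝ)) ^ (k - 1) := by
        calc (u : ℝ) ^ (1 - 1 / (k : ℝ)) ≤ ((2 * (N : ℝ)) ^ k) ^ (1 - 1 / (k : ℝ)) :=
              Real.rpow_le_rpow hu0.le hu2'.le (by rw [← hρ]; exact hρ0.le)
          _ = (2 * (N : ℝ)) ^ (k - 1) := by
              rw [← Real.rpow_natCast, ← Real.rpow_natCast, ← Real.rpow_mul (by positivity)]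
              congr 1
              rw [Nat.cast_sub (by omega)]
              push_cast
              field_simp
      have h5' := h5 i
      rw [hρ] at h5'
      have h9 : ((x i.succ : ℕ) : ℝ) ^ k ≤ C₁ * (2 * (N : ℝ)) ^ (k - 1) :=
        h5'.trans (mul_le_mul_of_nonneg_left h8 hC₁.le)
      have h10 : (N : ℝ) ^ k ≤ 4 ^ ((t + 1) * k) * (C₁ * (2 * (N : ℝ)) ^ (k - 1)) :=
        h7.trans (mul_le_mul_of_nonneg_left h9 (by positivity))
      have h11 : (N : ℝ) ^ k = N * (N : ℝ) ^ (k - 1) := by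
        rw [← pow_succ']; congr 1; omega
      rw [h11, mul_pow] at h10
      have h12 : (C₁ * 2 ^ (k - 1) * 4 ^ ((t + 1) * k)) * (N : ℝ) ^ (k - 1) <
          (N : ℝ) * (N : ℝ) ^ (k - 1) := mul_lt_mul_of_pos_right g2 (by positivity)
      nlinarith
  refine ⟨∑ i, av k M v (x i), ⟨x, fun i => ⟨(h1 i).1, hx2N i, (h1 i).2, hblk i⟩, rfl⟩, h2, ?_⟩
  have h6 : (u : ℝ) ^ τ ≤ (2 : ℝ) ^ ((k : ℝ) * τ) * (N : ℝ) ^ ((k : ℝ) * τ) := by
    calc (u : ℝ) ^ τ ≤ ((2 * (N : ℝ)) ^ k) ^ τ := Real.rpow_le_rpow hu0.le hu2'.le hτ0.le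
      _ = (2 * (N : ℝ)) ^ ((k : ℝ) * τ) := by
          rw [← Real.rpow_natCast, ← Real.rpow_mul (by positivity)]
      _ = _ := Real.mul_rpow (by norm_num) hN0.le
  have h7 : C * (u : ℝ) ^ τ < (N : ℝ) ^ κ := by
    calc C * (u : ℝ) ^ τ ≤ C * ((2 : ℝ) ^ ((k : ℝ) * τ) * (N : ℝ) ^ ((k : ℝ) * τ)) :=
          mul_le_mul_of_nonneg_left h6 (by linarith)
      _ = C * (2 : ℝ) ^ ((k : ℝ) * τ) * (N : ℝ) ^ ((k : ℝ) * τ) := by ring
      _ < (N : ℝ) ^ (κ - k * τ) * (N : ℝ) ^ ((k : ℝ) * τ) :=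
          mul_lt_mul_of_pos_right g3 (by positivity)
      _ = (N : ℝ) ^ κ := by rw [← Real.rpow_add hN0]; congr 1; ring
  have h8 : (u : ℝ) < ∑ i, (av k M v (x i) : ℝ) + l N 0 := by
    have := hl N
    linarith
  have h9 : u < ∑ i, av k M v (x i) + l N 0 := by exact_mod_cast h8
  have h10 : l N 0 ≤ M * l N 0 := Nat.le_mul_of_pos_left _ hM
  omega

end Pool.Agent.Helper65.WP
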